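import Mathlib

/-!
# Renorming a greedy system with an `s`-norm under which it is 1-greedy

Abstract part for MP_877d49_an.  `e : ι → X` is a system in a normed space with coefficient
functionals `a`, unconditional, total and democratic.  We construct an equivalent `s`-norm
(with some small `s`) for which the system is `1`-greedy.
-/

namespace Pool.Agent.Lib.MP_877d49_an

open Finset

section

variable {𝕜 : Type*} [RCLike 𝕜] {X : Type*} [NormedAddCommGroup X] [NormedSpace 𝕜 X] {ι : Type*}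
  [DecidableEq ι]

/-- `c` is an admissible modification of `x`. -/
def Adm (x c : ι → 𝕜) : Prop :=
  ∃ t : ℝ, ∃ D E : Finset ι, D.card ≤ E.card ∧ (∀ j ∈ E, t ≤ ‖x j‖) ∧ (∀ j, ‖c j‖ ≤ t) ∧
    (∀ j, j ∉ D → ‖c j‖ ≤ ‖x j‖) ∧ (∀ j ∈ E, j ∉ D → c j = 0)

/-- The abstract hypotheses on the system. -/
structure GreedySystem (e : ι → X) (a : X →ₗ[𝕜] (ι → 𝕜)) (K : ℝ) : Prop where
  one_le : 1 ≤ K
  bio : ∀ i j, a (e i) j = if i = j then 1 else 0
  unc : ∀ (f : X) (c : ι →₀ 𝕜), (∀ j, ‖c j‖ ≤ ‖a f j‖) →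
    ‖Finsupp.linearCombination 𝕜 e c‖ ≤ K * ‖f‖
  tot : ∀ (f : X) (M : ℝ), (∀ F : Finset ι, ‖∑ j ∈ F, a f j • e j‖ ≤ M) → ‖f‖ ≤ M
  dem : ∀ c d : ι →₀ 𝕜, c.support.card ≤ d.support.card → (∀ j, ‖c j‖ ≤ 1) →
    (∀ j ∈ d.support, 1 ≤ ‖d j‖) →
    ‖Finsupp.linearCombination 𝕜 e c‖ ≤ K * ‖Finsupp.linearCombination 𝕜 e d‖

omit [DecidableEq ι] in
lemma adm_zero (x : ι → 𝕜) : Adm x (0 : ι → 𝕜) :=
  ⟨0, ∅, ∅, le_rfl, by simp, by simp, by simp, by simp⟩

omit [DecidableEq ι] in
lemma adm_smul {x c : ι → 𝕜} (h : Adm x c) (r : 𝕜) : Adm (r • x) (r • c) := by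
  obtain ⟨t, D, E, h1, h2, h3, h4, h5⟩ := h
  refine ⟨‖r‖ * t, D, E, h1, ?_, ?_, ?_, ?_⟩
  · intro j hj
    simp only [Pi.smul_apply, norm_smul]
    exact mul_le_mul_of_nonneg_left (h2 j hj) (norm_nonneg _)
  · intro j
    simp only [Pi.smul_apply, norm_smul]
    exact mul_le_mul_of_nonneg_left (h3 j) (norm_nonneg _)
  · intro j hj
    simp only [Pi.smul_apply, norm_smul]
    exact mul_le_mul_of_nonneg_left (h4 j hj) (norm_nonneg _)
  · intro j hj hj'
    simp only [Pi.smul_apply, h5 j hj hj', smul_zero]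

/-- The greedy comparison. -/
lemma adm_greedy {x b c : ι → 𝕜} {A B : Finset ι}
    (hA : ∀ j ∈ A, ∀ i, i ∉ A → ‖x i‖ ≤ ‖x j‖) (hB : B.card ≤ A.card)
    (h : Adm (fun j => if j ∈ A then 0 else x j) c) :
    Adm (fun j => if j ∈ B then x j - b j else x j) c := by
  obtain ⟨t, D, E, h1, h2, h3, h4, h5⟩ := h
  by_cases hA0 : A = ∅
  · subst hA0
    have hB0 : B = ∅ := by simpa using hB
    subst hB0
    exact ⟨t, D, E, h1, by simpa using h2, h3, by simpa using h4, h5⟩
  have hAne : A.Nonempty := Finset.nonempty_iff_ne_empty.mpr hA0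
  obtain ⟨j0, hj0, hmin⟩ := A.exists_min_image (fun j => ‖x j‖) hAne
  set t0 : ℝ := ‖x j0‖ with ht0
  have hoff : ∀ i, i ∉ A → ‖x i‖ ≤ t0 := fun i hi => hA j0 hj0 i hi
  have hcardAB : (B \ A).card ≤ (A \ B).card := by
    have e1 := Finset.card_sdiff_add_card_inter B A
    have e2 := Finset.card_sdiff_add_card_inter A B
    rw [Finset.inter_comm] at e2
    omega
  by_cases ht : t ≤ 0
  · have hc : c = 0 := by
      funext j
      have := (h3 j).trans ht
      simpa using this
    rw [hc]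
    exact adm_zero _
  push Not at ht
  by_cases hE : E = ∅
  · subst hE
    have hD : D = ∅ := by simpa using h1
    subst hD
    refine ⟨t0, B \ A, A \ B, hcardAB, ?_, ?_, ?_, ?_⟩
    · intro j hj
      rw [Finset.mem_sdiff] at hj
      simp only [hj.2, if_false]
      exact hmin j hj.1
    · intro j
      have h := h4 j (by simp)
      by_cases hj : j ∈ A
      · simp only [hj, if_true, norm_zero] at h
        exact h.trans (norm_nonneg _)
      · simp only [hj, if_false] at h
        exact h.trans (hoff j hj)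
    · intro j hj
      have h := h4 j (by simp)
      by_cases hjA : j ∈ A
      · simp only [hjA, if_true, norm_zero] at h
        exact h.trans (norm_nonneg _)
      · have hjB : j ∉ B := fun hjB => hj (Finset.mem_sdiff.mpr ⟨hjB, hjA⟩)
        simp only [hjA, if_false] at h
        simpa only [hjB, if_false] using h
    · intro j hj _
      have h := h4 j (by simp)
      rw [Finset.mem_sdiff] at hj
      simp only [hj.1, if_true, norm_zero] at h
      simpa using h
  · have hEA : ∀ j ∈ E, j ∉ A := by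
      intro j hj hjA
      have := h2 j hj
      simp only [hjA, if_true, norm_zero] at this
      linarith
    have hEx : ∀ j ∈ E, t ≤ ‖x j‖ := by
      intro j hj
      have := h2 j hj
      simpa only [hEA j hj, if_false] using this
    obtain ⟨i0, hi0⟩ := Finset.nonempty_iff_ne_empty.mpr hE
    have htt0 : t ≤ t0 := (hEx i0 hi0).trans (hoff i0 (hEA i0 hi0))
    refine ⟨t, D ∪ ((B \ A) \ E), (E \ B) ∪ (A \ B), ?_, ?_, h3, ?_, ?_⟩
    · have d1 : Disjoint (E \ B) (A \ B) := by
        rw [Finset.disjoint_left]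
        intro j hj hj'
        exact hEA j (Finset.mem_sdiff.mp hj).1 (Finset.mem_sdiff.mp hj').1
      rw [Finset.card_union_of_disjoint d1]
      have e1 := Finset.card_union_le D ((B \ A) \ E)
      have e2 := Finset.card_sdiff_add_card_inter (B \ A) E
      have e3 := Finset.card_sdiff_add_card_inter E B
      have e4 : (B \ A) ∩ E = E ∩ B := by
        ext j
        simp only [Finset.mem_inter, Finset.mem_sdiff]
        constructor
        · rintro ⟨⟨h1, h2⟩, h3⟩
          exact ⟨h3, h1⟩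
        · rintro ⟨h1, h2⟩
          exact ⟨⟨h2, hEA j h1⟩, h1⟩
      rw [e4] at e2
      omega
    · intro j hj
      rw [Finset.mem_union, Finset.mem_sdiff, Finset.mem_sdiff] at hj
      rcases hj with hj | hj
      · simp only [hj.2, if_false]
        exact hEx j hj.1
      · simp only [hj.2, if_false]
        exact htt0.trans (hmin j hj.1)
    · intro j hj
      rw [Finset.mem_union, not_or] at hj
      have h := h4 j hj.1
      by_cases hjA : j ∈ A
      · simp only [hjA, if_true, norm_zero] at h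
        exact h.trans (norm_nonneg _)
      · simp only [hjA, if_false] at h
        by_cases hjB : j ∈ B
        · have hjE : j ∈ E := by
            by_contra hjE
            exact hj.2 (Finset.mem_sdiff.mpr ⟨Finset.mem_sdiff.mpr ⟨hjB, hjA⟩, hjE⟩)
          rw [h5 j hjE hj.1, norm_zero]
          exact norm_nonneg _
        · simpa only [hjB, if_false] using h
    · intro j hj hjD
      rw [Finset.mem_union, not_or] at hjD
      rw [Finset.mem_union, Finset.mem_sdiff, Finset.mem_sdiff] at hj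
      rcases hj with hj | hj
      · exact h5 j hj.1 hjD.1
      · have h := h4 j hjD.1
        simp only [hj.1, if_true, norm_zero] at h
        simpa using h

/-- Restriction of a coefficient sequence to a finite set. -/
noncomputable def restr (x : ι → 𝕜) (F : Finset ι) : ι →₀ 𝕜 :=
  Finsupp.indicator F (fun i _ => x i)

lemma restr_apply (x : ι → 𝕜) (F : Finset ι) (j : ι) :
    restr x F j = if j ∈ F then x j else 0 := by
  unfold restr
  rw [Finsupp.indicator_apply]
  split_ifs <;> rfl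

omit [DecidableEq ι] in
lemma restr_support_subset (x : ι → 𝕜) (F : Finset ι) : (restr x F).support ⊆ F :=
  Finsupp.support_indicator_subset _ _

lemma linearCombination_restr (e : ι → X) (x : ι → 𝕜) (F : Finset ι) :
    Finsupp.linearCombination 𝕜 e (restr x F) = ∑ j ∈ F, x j • e j := by
  rw [Finsupp.linearCombination_apply, Finsupp.sum_of_support_subset _
    (restr_support_subset x F)]
  · apply Finset.sum_congr rfl
    intro j hj
    rw [restr_apply, if_pos hj]
  · intro j _
    simp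

namespace GreedySystem

variable {e : ι → X} {a : X →ₗ[𝕜] (ι → 𝕜)} {K : ℝ}

lemma dem' (H : GreedySystem e a K) (f : X) (c : ι →₀ 𝕜) (G : Finset ι) (t τ : ℝ) (hτ : 0 < τ)
    (ht : 0 ≤ t)
    (hc : ∀ j, ‖c j‖ ≤ t) (hcard : c.support.card ≤ G.card) (hG : ∀ j ∈ G, τ ≤ ‖a f j‖) :
    ‖Finsupp.linearCombination 𝕜 e c‖ ≤ (t / τ) * K ^ 2 * ‖f‖ := by
  have hK : 0 ≤ K := zero_le_one.trans H.one_le
  rcases ht.eq_or_lt with h0 | ht
  · have : c = 0 := by
      ext j
      have := hc j
      rw [← h0] at this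
      simpa using this
    rw [this, map_zero, norm_zero, ← h0]
    simp
  -- the comparison vector
  set d : ι →₀ 𝕜 := ((τ : 𝕜)⁻¹) • restr (a f) G with hd
  have hdj : ∀ j ∈ G, 1 ≤ ‖d j‖ := by
    intro j hj
    rw [hd, Finsupp.smul_apply, restr_apply, if_pos hj, norm_smul, norm_inv,
      RCLike.norm_ofReal, abs_of_pos hτ]
    rw [inv_mul_eq_div, one_le_div hτ]
    exact hG j hj
  have hsupp : d.support = G := by
    apply Finset.Subset.antisymm
    · intro j hj
      by_contra hjG
      rw [Finsupp.mem_support_iff, hd, Finsupp.smul_apply, restr_apply, if_neg hjG] at hj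
      simp at hj
    · intro j hj
      rw [Finsupp.mem_support_iff]
      intro h
      have := hdj j hj
      rw [h, norm_zero] at this
      linarith
  set c' : ι →₀ 𝕜 := ((t : 𝕜)⁻¹) • c with hc'
  have hc'j : ∀ j, ‖c' j‖ ≤ 1 := by
    intro j
    rw [hc', Finsupp.smul_apply, norm_smul, norm_inv, RCLike.norm_ofReal, abs_of_pos ht,
      inv_mul_eq_div, div_le_one ht]
    exact hc j
  have hc'supp : c'.support.card ≤ d.support.card := by
    rw [hsupp]
    exact (Finset.card_le_card Finsupp.support_smul).trans hcard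
  have h1 := H.dem c' d hc'supp hc'j (by rw [hsupp]; exact hdj)
  have h2 : ‖Finsupp.linearCombination 𝕜 e (restr (a f) G)‖ ≤ K * ‖f‖ := by
    apply H.unc
    intro j
    rw [restr_apply]
    split_ifs
    · exact le_rfl
    · simp
  have h3 : ‖Finsupp.linearCombination 𝕜 e d‖ ≤ τ⁻¹ * (K * ‖f‖) := by
    rw [hd, map_smul, norm_smul, norm_inv, RCLike.norm_ofReal, abs_of_pos hτ]
    exact mul_le_mul_of_nonneg_left h2 (by positivity)
  have h4 : ‖Finsupp.linearCombination 𝕜 e c'‖ = t⁻¹ * ‖Finsupp.linearCombination 𝕜 e c‖ := by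
    rw [hc', map_smul, norm_smul, norm_inv, RCLike.norm_ofReal, abs_of_pos ht]
  rw [h4] at h1
  have h5 : t⁻¹ * ‖Finsupp.linearCombination 𝕜 e c‖ ≤ K * (τ⁻¹ * (K * ‖f‖)) :=
    h1.trans (mul_le_mul_of_nonneg_left h3 hK)
  have h6 := mul_le_mul_of_nonneg_left h5 ht.le
  rw [← mul_assoc, mul_inv_cancel₀ ht.ne', one_mul] at h6
  calc _ ≤ _ := h6
    _ = t / τ * K ^ 2 * ‖f‖ := by rw [div_eq_mul_inv]; ring

/-- Admissible modifications are controlled by the norm. -/
lemma bound (H : GreedySystem e a K) {f : X} {c : ι →₀ 𝕜} (h : Adm (a f) (c : ι → 𝕜)) :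
    ‖Finsupp.linearCombination 𝕜 e c‖ ≤ (K + K ^ 2) * ‖f‖ := by
  have hK : 0 ≤ K := zero_le_one.trans H.one_le
  obtain ⟨t, D, E, h1, h2, h3, h4, h5⟩ := h
  by_cases ht : t ≤ 0
  · have hc : c = 0 := by
      ext j
      have := (h3 j).trans ht
      simpa using this
    rw [hc, map_zero, norm_zero]
    positivity
  push Not at ht
  have hsplit : c = c.filter (· ∈ D) + c.filter (fun j => ¬ j ∈ D) :=
    (Finsupp.filter_add_filter_not c _).symm
  rw [hsplit, map_add]
  refine (norm_add_le _ _).trans ?_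
  have e1 : ‖Finsupp.linearCombination 𝕜 e (c.filter (fun j => ¬ j ∈ D))‖ ≤ K * ‖f‖ := by
    apply H.unc
    intro j
    by_cases hj : j ∈ D
    · rw [Finsupp.filter_apply_neg _ _ (by simpa using hj), norm_zero]
      exact norm_nonneg _
    · rw [Finsupp.filter_apply_pos _ _ (by simpa using hj)]
      exact h4 j hj
  have e2 : ‖Finsupp.linearCombination 𝕜 e (c.filter (· ∈ D))‖ ≤ (t / t) * K ^ 2 * ‖f‖ := by
    apply H.dem' f _ E t t ht ht.le
    · intro j
      by_cases hj : j ∈ D
      · rw [Finsupp.filter_apply_pos _ _ hj]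
        exact h3 j
      · rw [Finsupp.filter_apply_neg _ _ hj, norm_zero]
        exact ht.le
    · refine (Finset.card_le_card ?_).trans h1
      intro j hj
      by_contra hjD
      rw [Finsupp.mem_support_iff, Finsupp.filter_apply_neg _ _ hjD] at hj
      exact hj rfl
    · exact h2
  rw [div_self ht.ne', one_mul] at e2
  linarith

/-- The new functional. -/
noncomputable def newNorm (e : ι → X) (a : X →ₗ[𝕜] (ι → 𝕜)) (f : X) : ℝ :=
  sSup {r : ℝ | ∃ c : ι →₀ 𝕜, Adm (a f) (c : ι → 𝕜) ∧ r = ‖Finsupp.linearCombination 𝕜 e c‖}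

lemma bddAbove (H : GreedySystem e a K) (f : X) :
    BddAbove {r : ℝ | ∃ c : ι →₀ 𝕜, Adm (a f) (c : ι → 𝕜) ∧
      r = ‖Finsupp.linearCombination 𝕜 e c‖} := by
  refine ⟨(K + K ^ 2) * ‖f‖, ?_⟩
  rintro r ⟨c, hc, rfl⟩
  exact H.bound hc

omit [DecidableEq ι] in
lemma nonempty_set (f : X) :
    {r : ℝ | ∃ c : ι →₀ 𝕜, Adm (a f) (c : ι → 𝕜) ∧
      r = ‖Finsupp.linearCombination 𝕜 e c‖}.Nonempty :=
  ⟨0, 0, by simpa using adm_zero (a f), by simp⟩

lemma le_newNorm (H : GreedySystem e a K) {f : X} {c : ι →₀ 𝕜} (h : Adm (a f) (c : ι → 𝕜)) :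
    ‖Finsupp.linearCombination 𝕜 e c‖ ≤ newNorm e a f :=
  le_csSup (H.bddAbove f) ⟨c, h, rfl⟩

lemma newNorm_le {f : X} {M : ℝ}
    (h : ∀ c : ι →₀ 𝕜, Adm (a f) (c : ι → 𝕜) → ‖Finsupp.linearCombination 𝕜 e c‖ ≤ M) :
    newNorm e a f ≤ M := by
  apply csSup_le (nonempty_set f)
  rintro r ⟨c, hc, rfl⟩
  exact h c hc

lemma newNorm_upper (H : GreedySystem e a K) (f : X) :
    newNorm e a f ≤ (K + K ^ 2) * ‖f‖ := newNorm_le fun _ hc => H.bound hc

lemma newNorm_lower (H : GreedySystem e a K) (f : X) : ‖f‖ ≤ newNorm e a f := by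
  apply H.tot
  intro F
  rw [← linearCombination_restr]
  apply H.le_newNorm
  refine ⟨∑ j ∈ F, ‖a f j‖, ∅, ∅, le_rfl, by simp, ?_, ?_, by simp⟩
  · intro j
    rw [restr_apply]
    split_ifs with hj
    · exact Finset.single_le_sum (f := fun j => ‖a f j‖) (fun i _ => norm_nonneg _) hj
    · rw [norm_zero]
      exact Finset.sum_nonneg fun i _ => norm_nonneg _
  · intro j _
    rw [restr_apply]
    split_ifs with hj
    · exact le_rfl
    · rw [norm_zero]; exact norm_nonneg _

lemma newNorm_nonneg (H : GreedySystem e a K) (f : X) : 0 ≤ newNorm e a f :=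
  (norm_nonneg f).trans (H.newNorm_lower f)

lemma newNorm_smul_le (H : GreedySystem e a K) (r : 𝕜) (f : X) :
    ‖r‖ * newNorm e a f ≤ newNorm e a (r • f) := by
  by_cases hr : r = 0
  · rw [hr, norm_zero, zero_mul]
    exact H.newNorm_nonneg _
  have hr' : 0 < ‖r‖ := norm_pos_iff.mpr hr
  rw [mul_comm, ← le_div_iff₀ hr']
  apply newNorm_le
  intro c hc
  rw [le_div_iff₀ hr']
  have h := adm_smul hc r
  rw [← map_smul] at h
  have h' := H.le_newNorm (f := r • f) (c := r • c) (by simpa using h)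
  rwa [map_smul, norm_smul, mul_comm] at h'

lemma newNorm_smul (H : GreedySystem e a K) (r : 𝕜) (f : X) :
    newNorm e a (r • f) = ‖r‖ * newNorm e a f := by
  apply le_antisymm _ (H.newNorm_smul_le r f)
  by_cases hr : r = 0
  · rw [hr, zero_smul, norm_zero, zero_mul]
    have := H.newNorm_upper 0
    simpa using this
  have hr' : 0 < ‖r‖ := norm_pos_iff.mpr hr
  have h := H.newNorm_smul_le r⁻¹ (r • f)
  rw [smul_smul, inv_mul_cancel₀ hr, one_smul, norm_inv, inv_mul_le_iff₀ hr'] at h
  exact h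

/-- The key Hoelder-type estimate. -/
lemma newNorm_add (H : GreedySystem e a K) (f g : X) {l : ℝ} (hl0 : 0 < l) (hl1 : l < 1) :
    newNorm e a (f + g) ≤ newNorm e a f / (1 - l) + (K + K ^ 2) / l * newNorm e a g := by
  have hK : 0 ≤ K := zero_le_one.trans H.one_le
  have h1l : 0 < 1 - l := by linarith
  have hNf := H.newNorm_nonneg f
  have hNg := H.newNorm_nonneg g
  apply newNorm_le
  intro c hc
  obtain ⟨t, D, E, h1, h2, h3, h4, h5⟩ := hc
  by_cases ht : t ≤ 0
  · have hc : c = 0 := by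
      ext j
      have := (h3 j).trans ht
      simpa using this
    rw [hc, map_zero, norm_zero]
    positivity
  push Not at ht
  classical
  set x : ι → 𝕜 := a f with hx
  set y : ι → 𝕜 := a g with hy
  have hz : ∀ j, a (f + g) j = x j + y j := fun j => by rw [map_add]; rfl
  set G : Finset ι := E.filter (fun j => l * t < ‖y j‖) with hG
  set E' : Finset ι := E \ G with hE'
  have hcardG : E'.card + G.card = E.card := by
    rw [hE']
    exact Finset.card_sdiff_add_card_eq_card (Finset.filter_subset _ _)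
  obtain ⟨D', hD'D, hD'card⟩ := Finset.exists_subset_card_eq
    (min_le_left D.card E'.card)
  have hcard3 : (D \ D').card ≤ G.card := by
    have := Finset.card_sdiff_add_card_eq_card hD'D
    omega
  have hcard2 : D'.card ≤ E'.card := by rw [hD'card]; exact min_le_right _ _
  -- the pieces
  set c3 : ι →₀ 𝕜 := restr c (D \ D') with hc3
  set c1 : ι →₀ 𝕜 := restr
    (fun j => if j ∈ D' then c j else if j ∈ D then 0 else
      (if ‖c j‖ ≤ ‖x j‖ then c j else ((‖x j‖ / ‖c j‖ : ℝ) : 𝕜) * c j)) c.support with hc1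
  set c2 : ι →₀ 𝕜 := c - c1 - c3 with hc2
  have hc1j : ∀ j, c1 j = if j ∈ D' then c j else if j ∈ D then 0 else
      (if ‖c j‖ ≤ ‖x j‖ then c j else ((‖x j‖ / ‖c j‖ : ℝ) : 𝕜) * c j) := by
    intro j
    rw [hc1, restr_apply]
    by_cases hj : j ∈ c.support
    · rw [if_pos hj]
    · rw [if_neg hj]
      rw [Finsupp.notMem_support_iff] at hj
      simp [hj]
  have hc3j : ∀ j, c3 j = if j ∈ D \ D' then c j else 0 := fun j => by rw [hc3, restr_apply]
  -- estimates off D
  have hoff : ∀ j, j ∉ D → ‖c1 j‖ ≤ ‖x j‖ ∧ ‖c1 j‖ ≤ ‖c j‖ ∧ ‖c j - c1 j‖ ≤ ‖y j‖ := by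
    intro j hj
    have hjD' : j ∉ D' := fun h => hj (hD'D h)
    rw [hc1j j, if_neg hjD', if_neg hj]
    have hcz := h4 j hj
    rw [hz j] at hcz
    by_cases hle : ‖c j‖ ≤ ‖x j‖
    · rw [if_pos hle]
      refine ⟨hle, le_rfl, ?_⟩
      simp
    · rw [if_neg hle]
      push Not at hle
      have hcpos : 0 < ‖c j‖ := (norm_nonneg _).trans_lt hle
      have hnn : 0 ≤ ‖x j‖ / ‖c j‖ := by positivity
      have hn : ‖((‖x j‖ / ‖c j‖ : ℝ) : 𝕜) * c j‖ = ‖x j‖ := by
        rw [norm_mul, RCLike.norm_ofReal, abs_of_nonneg hnn, div_mul_cancel₀ _ hcpos.ne']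
      refine ⟨hn.le, by rw [hn]; exact hle.le, ?_⟩
      have h6 : c j - ((‖x j‖ / ‖c j‖ : ℝ) : 𝕜) * c j =
          ((1 - ‖x j‖ / ‖c j‖ : ℝ) : 𝕜) * c j := by
        push_cast
        ring
      have h7 : 0 ≤ 1 - ‖x j‖ / ‖c j‖ := by
        rw [sub_nonneg, div_le_one hcpos]
        exact hle.le
      rw [h6, norm_mul, RCLike.norm_ofReal, abs_of_nonneg h7, sub_mul, one_mul,
        div_mul_cancel₀ _ hcpos.ne']
      have := norm_add_le (x j) (y j)
      linarith
  -- piece 1
  have hadm1 : Adm x ((((1 - l : ℝ) : 𝕜) • c1 : ι →₀ 𝕜) : ι → 𝕜) := by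
    have hnorm : ∀ j, ‖(((1 - l : ℝ) : 𝕜) • c1 : ι →₀ 𝕜) j‖ = (1 - l) * ‖c1 j‖ := by
      intro j
      rw [Finsupp.smul_apply, norm_smul, RCLike.norm_ofReal, abs_of_pos h1l]
    refine ⟨(1 - l) * t, D', E', hcard2, ?_, ?_, ?_, ?_⟩
    · intro j hj
      rw [hE', Finset.mem_sdiff, hG, Finset.mem_filter, not_and] at hj
      have h6 := hj.2 hj.1
      push Not at h6
      have h7 := h2 j hj.1
      rw [hz j] at h7
      have := norm_add_le (x j) (y j)
      linarith
    · intro j
      rw [hnorm]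
      apply mul_le_mul_of_nonneg_left _ h1l.le
      by_cases hjD : j ∈ D
      · rw [hc1j j]
        by_cases hjD' : j ∈ D'
        · rw [if_pos hjD']; exact h3 j
        · rw [if_neg hjD', if_pos hjD, norm_zero]; exact ht.le
      · exact (hoff j hjD).2.1.trans (h3 j)
    · intro j hj
      rw [hnorm]
      have h6 : ‖c1 j‖ ≤ ‖x j‖ := by
        by_cases hjD : j ∈ D
        · rw [hc1j j, if_neg hj, if_pos hjD, norm_zero]; exact norm_nonneg _
        · exact (hoff j hjD).1
      have h7 := norm_nonneg (c1 j)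
      nlinarith
    · intro j hj hjD'
      have hjE : j ∈ E := (Finset.mem_sdiff.mp hj).1
      have h6 : c1 j = 0 := by
        by_cases hjD : j ∈ D
        · rw [hc1j j, if_neg hjD', if_pos hjD]
        · rw [hc1j j, if_neg hjD', if_neg hjD, h5 j hjE hjD]
          simp
      rw [Finsupp.smul_apply, h6, smul_zero]
  have hn1 : ‖Finsupp.linearCombination 𝕜 e c1‖ ≤ newNorm e a f / (1 - l) := by
    have h6 := H.le_newNorm hadm1
    rw [map_smul, norm_smul, RCLike.norm_ofReal, abs_of_pos h1l] at h6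
    rw [le_div_iff₀ h1l, mul_comm]
    exact h6
  -- piece 3
  have hn3 : ‖Finsupp.linearCombination 𝕜 e c3‖ ≤ t / (l * t) * K ^ 2 * ‖g‖ := by
    apply H.dem' g c3 G t (l * t) (by positivity) ht.le
    · intro j
      rw [hc3j]
      split_ifs
      · exact h3 j
      · rw [norm_zero]; exact ht.le
    · exact (Finset.card_le_card (restr_support_subset _ _)).trans hcard3
    · intro j hj
      rw [hG, Finset.mem_filter] at hj
      exact hj.2.le
  -- piece 2
  have hn2 : ‖Finsupp.linearCombination 𝕜 e c2‖ ≤ K * ‖g‖ := by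
    apply H.unc
    intro j
    rw [hc2, Finsupp.sub_apply, Finsupp.sub_apply, hc3j]
    by_cases hjD : j ∈ D
    · by_cases hjD' : j ∈ D'
      · rw [hc1j j, if_pos hjD', if_neg (by simp [hjD'])]
        simp
      · rw [hc1j j, if_neg hjD', if_pos hjD, if_pos (by simp [hjD, hjD'])]
        simp
    · rw [if_neg (by simp [hjD]), sub_zero]
      exact (hoff j hjD).2.2
  have hsum : c = c1 + c2 + c3 := by rw [hc2]; abel
  have hg := H.newNorm_lower g
  have hlt : t / (l * t) = 1 / l := by field_simp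
  rw [hlt] at hn3
  rw [hsum, map_add, map_add]
  have n1 := norm_add_le (Finsupp.linearCombination 𝕜 e c1 + Finsupp.linearCombination 𝕜 e c2)
    (Finsupp.linearCombination 𝕜 e c3)
  have n2 := norm_add_le (Finsupp.linearCombination 𝕜 e c1) (Finsupp.linearCombination 𝕜 e c2)
  have n3 : K * ‖g‖ ≤ K / l * newNorm e a g := by
    have : K ≤ K / l := by
      rw [le_div_iff₀ hl0]
      nlinarith
    have h8 : 0 ≤ K / l := by positivity
    calc K * ‖g‖ ≤ K / l * ‖g‖ := mul_le_mul_of_nonneg_right this (norm_nonneg _)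
      _ ≤ K / l * newNorm e a g := mul_le_mul_of_nonneg_left hg h8
  have n4 : 1 / l * K ^ 2 * ‖g‖ ≤ K ^ 2 / l * newNorm e a g := by
    have h8 : 0 ≤ K ^ 2 / l := by positivity
    calc 1 / l * K ^ 2 * ‖g‖ = K ^ 2 / l * ‖g‖ := by ring
      _ ≤ K ^ 2 / l * newNorm e a g := mul_le_mul_of_nonneg_left hg h8
  have n5 : (K + K ^ 2) / l * newNorm e a g =
      K / l * newNorm e a g + K ^ 2 / l * newNorm e a g := by ring
  rw [n5]
  linarith

/-- `newNorm` is an `s`-norm for small `s`. -/
lemma newNorm_rpow_add (H : GreedySystem e a K) {s : ℝ} (hs0 : 0 < s) (hs1 : s ≤ 1 / 2)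
    (hs2 : s * (1 + 2 * (K + K ^ 2)) ≤ 1) (f g : X) :
    newNorm e a (f + g) ^ s ≤ newNorm e a f ^ s + newNorm e a g ^ s := by
  have key : ∀ f g : X, newNorm e a g ≤ newNorm e a f →
      newNorm e a (f + g) ^ s ≤ newNorm e a f ^ s + newNorm e a g ^ s := by
    intro f g hfg
    have hK : 0 ≤ K := zero_le_one.trans H.one_le
    have hNf := H.newNorm_nonneg f
    have hNg := H.newNorm_nonneg g
    rcases hNg.eq_or_lt with h0 | hNgpos
    · have hg : g = 0 := by
        have := H.newNorm_lower g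
        rw [← h0] at this
        simpa using this
      rw [hg, add_zero]
      have := Real.rpow_nonneg (H.newNorm_nonneg (0 : X)) s
      linarith
    have hNfpos : 0 < newNorm e a f := hNgpos.trans_le hfg
    set η : ℝ := newNorm e a g / newNorm e a f with hη
    have hη0 : 0 < η := by positivity
    have hη1 : η ≤ 1 := by rw [hη, div_le_one hNfpos]; exact hfg
    have hsq0 : 0 < √η := Real.sqrt_pos.mpr hη0
    have hsq1 : √η ≤ 1 := Real.sqrt_le_one.mpr hη1
    have hNg' : newNorm e a g = η * newNorm e a f := by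
      rw [hη]; field_simp
    have hη2 : η = √η * √η := (Real.mul_self_sqrt hη0.le).symm
    have h1 := H.newNorm_add f g (l := √η / 2) (by positivity) (by linarith)
    have h2 : newNorm e a f / (1 - √η / 2) ≤ newNorm e a f * (1 + √η) := by
      rw [div_le_iff₀ (by linarith)]
      have : 1 ≤ (1 + √η) * (1 - √η / 2) := by nlinarith
      nlinarith
    have h3 : (K + K ^ 2) / (√η / 2) * newNorm e a g =
        2 * (K + K ^ 2) * √η * newNorm e a f := by
      rw [hNg']
      have : (K + K ^ 2) / (√η / 2) * (η * newNorm e a f) =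
        (K + K ^ 2) / (√η / 2) * (√η * √η * newNorm e a f) := by rw [← hη2]
      rw [this]
      field_simp
    rw [h3] at h1
    have h4 : newNorm e a (f + g) ≤ newNorm e a f * (1 + (1 + 2 * (K + K ^ 2)) * √η) := by
      nlinarith
    have h5 : newNorm e a (f + g) ^ s ≤
        newNorm e a f ^ s * (1 + (1 + 2 * (K + K ^ 2)) * √η) ^ s := by
      rw [← Real.mul_rpow hNf (by positivity)]
      exact Real.rpow_le_rpow (H.newNorm_nonneg _) h4 hs0.le
    have h6 : (1 + (1 + 2 * (K + K ^ 2)) * √η) ^ s ≤ 1 + s * ((1 + 2 * (K + K ^ 2)) * √η) := by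
      have : 0 ≤ (1 + 2 * (K + K ^ 2)) * √η := by positivity
      exact rpow_one_add_le_one_add_mul_self (by linarith) hs0.le (by linarith)
    have h7 : s * ((1 + 2 * (K + K ^ 2)) * √η) ≤ √η := by
      rw [← mul_assoc]
      calc s * (1 + 2 * (K + K ^ 2)) * √η ≤ 1 * √η :=
            mul_le_mul_of_nonneg_right hs2 hsq0.le
        _ = √η := one_mul _
    have h8 : √η ≤ η ^ s := by
      rw [Real.sqrt_eq_rpow]
      exact Real.rpow_le_rpow_of_exponent_ge hη0 hη1 hs1
    have h9 : newNorm e a g ^ s = η ^ s * newNorm e a f ^ s := by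
      rw [hNg', Real.mul_rpow hη0.le hNf]
    rw [h9]
    have h10 : 0 ≤ newNorm e a f ^ s := Real.rpow_nonneg hNf s
    nlinarith
  rcases le_total (newNorm e a g) (newNorm e a f) with h | h
  · exact key f g h
  · have := key g f h
    rwa [add_comm g f, add_comm (newNorm e a g ^ s)] at this

/-- `newNorm` makes the system `1`-greedy. -/
lemma newNorm_greedy (H : GreedySystem e a K) (f : X) (A : Finset ι)
    (hA : ∀ j ∈ A, ∀ i, i ∉ A → ‖a f i‖ ≤ ‖a f j‖) (B : Finset ι) (hB : B.card ≤ A.card)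
    (b : ι → 𝕜) :
    newNorm e a (f - ∑ j ∈ A, a f j • e j) ≤ newNorm e a (f - ∑ j ∈ B, b j • e j) := by
  have hcoef : ∀ (F : Finset ι) (b : ι → 𝕜), a (f - ∑ j ∈ F, b j • e j) =
      fun j => if j ∈ F then a f j - b j else a f j := by
    intro F b
    funext j
    rw [map_sub, map_sum, Pi.sub_apply, Finset.sum_apply]
    have : ∀ i ∈ F, a (b i • e i) j = if i = j then b i else 0 := by
      intro i _
      rw [map_smul, Pi.smul_apply, H.bio, smul_eq_mul]
      split_ifs <;> simp
    rw [Finset.sum_congr rfl this, Finset.sum_ite_eq' F j b]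
    split_ifs <;> simp
  apply newNorm_le
  intro c hc
  apply H.le_newNorm
  rw [hcoef] at hc ⊢
  refine adm_greedy hA hB ?_
  convert hc using 2
  split_ifs <;> simp

end GreedySystem

end

end Pool.Agent.Lib.MP_877d49_an
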