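import Mathlib

/-!
# A zigzag-concave function (Burkholder)

`U x y = (|y| - (r-1)|x|) (|x|+|y|)^(p-1)` with `r` large is concave along lines of slope `±1`.
-/

namespace Pool.Agent.Lib.MP_877d49_an

open Set

/-- Gluing two concave functions at a point with a common supporting line. -/
lemma concaveOn_glue {φ : ℝ → ℝ} {S : Set ℝ} (hS : Convex ℝ S) {c m : ℝ} (hc : c ∈ S)
    (h1 : ConcaveOn ℝ (S ∩ Iic c) φ) (h2 : ConcaveOn ℝ (S ∩ Ici c) φ)
    (h : ∀ x ∈ S, φ x ≤ φ c + m * (x - c)) : ConcaveOn ℝ S φ := by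
  have key : ∀ x ∈ S, ∀ y ∈ S, x ≤ y → ∀ a b : ℝ, 0 ≤ a → 0 ≤ b → a + b = 1 →
      a * φ x + b * φ y ≤ φ (a * x + b * y) := by
    intro x hx y hy hxy a b ha hb hab
    rcases le_or_gt y c with hyc | hyc
    · have := h1.2 ⟨hx, hxy.trans hyc⟩ ⟨hy, hyc⟩ ha hb hab
      simpa using this
    rcases le_or_gt c x with hxc | hxc
    · have := h2.2 ⟨hx, hxc⟩ ⟨hy, hxc.trans hxy⟩ ha hb hab
      simpa using this
    have ha' : a = 1 - b := by linarith
    have hfx := h x hx
    have hfy := h y hy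
    have hzS : a * x + b * y ∈ S := hS hx hy ha hb hab
    rcases le_or_gt (a * x + b * y) c with hz | hz
    · have hcx : 0 < c - x := by linarith
      set σ : ℝ := (φ c - φ x) / (c - x) with hσ
      have e1 : φ c - φ x = σ * (c - x) := by rw [hσ]; field_simp
      set s : ℝ := b * (y - x) / (c - x) with hs
      have e2 : s * (c - x) = b * (y - x) := by rw [hs]; field_simp
      have hs0 : 0 ≤ s := by
        rw [hs]; apply div_nonneg _ hcx.le
        exact mul_nonneg hb (by linarith)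
      have hs1 : s ≤ 1 := by
        rw [hs, div_le_one hcx]
        rw [ha'] at hz
        linarith
      have e3 : (1 - s) * x + s * c = a * x + b * y := by
        rw [ha']; linear_combination e2
      have h3 := h1.2 ⟨hx, hxc.le⟩ ⟨hc, le_refl c⟩ (by linarith : (0 : ℝ) ≤ 1 - s) hs0 (by ring)
      simp only [smul_eq_mul] at h3
      rw [e3] at h3
      have hm : m ≤ σ := by
        rw [hσ, le_div_iff₀ hcx]
        linarith
      have h4 : φ y ≤ φ c + σ * (y - c) := by
        have : m * (y - c) ≤ σ * (y - c) := mul_le_mul_of_nonneg_right hm (by linarith)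
        linarith
      have h5 : b * φ y ≤ b * (φ c + σ * (y - c)) := mul_le_mul_of_nonneg_left h4 hb
      have h6 : (1 - s) * φ x + s * φ c = a * φ x + b * (φ c + σ * (y - c)) := by
        rw [ha']
        linear_combination (s - b) * e1 + σ * e2
      linarith
    · have hyc' : 0 < y - c := by linarith
      set σ : ℝ := (φ y - φ c) / (y - c) with hσ
      have e1 : φ y - φ c = σ * (y - c) := by rw [hσ]; field_simp
      set s : ℝ := a * (y - x) / (y - c) with hs
      have e2 : s * (y - c) = a * (y - x) := by rw [hs]; field_simp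
      have hs0 : 0 ≤ s := by
        rw [hs]; apply div_nonneg _ hyc'.le
        exact mul_nonneg ha (by linarith)
      have hs1 : s ≤ 1 := by
        rw [hs, div_le_one hyc']
        have : b = 1 - a := by linarith
        rw [this] at hz
        linarith
      have e3 : s * c + (1 - s) * y = a * x + b * y := by
        have : b = 1 - a := by linarith
        rw [this]; linear_combination -e2
      have h3 := h2.2 ⟨hc, le_refl c⟩ ⟨hy, hyc.le⟩ hs0 (by linarith : (0 : ℝ) ≤ 1 - s) (by ring)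
      simp only [smul_eq_mul] at h3
      rw [e3] at h3
      have hm : σ ≤ m := by
        rw [hσ, div_le_iff₀ hyc']
        linarith
      have h4 : φ x ≤ φ c + σ * (x - c) := by
        have : m * (x - c) ≤ σ * (x - c) := mul_le_mul_of_nonpos_right hm (by linarith)
        linarith
      have h5 : a * φ x ≤ a * (φ c + σ * (x - c)) := mul_le_mul_of_nonneg_left h4 ha
      have h6 : s * φ c + (1 - s) * φ y = a * (φ c + σ * (x - c)) + b * φ y := by
        have : b = 1 - a := by linarith
        rw [this]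
        linear_combination (a - s) * e1 - σ * e2
      linarith
  refine ⟨hS, ?_⟩
  intro x hx y hy a b ha hb hab
  simp only [smul_eq_mul]
  rcases le_total x y with hxy | hxy
  · exact key x hx y hy hxy a b ha hb hab
  · have := key y hy x hx hxy b a hb ha (by linarith)
    rw [add_comm (b * φ y), add_comm (b * y)] at this
    exact this

/-- The outer pieces are concave. -/
lemma concaveOn_piece {p r κ b : ℝ} (hp : 1 < p) (hr : 2 ≤ r) (hb : 0 ≤ b)
    (hκ : (2 - r) * p + κ * r * (p - 2) ≤ 0) :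
    ConcaveOn ℝ (Ici b) (fun a : ℝ => (2 - r) * a ^ p + κ * r * b * a ^ (p - 1)) := by
  apply concaveOn_of_hasDerivWithinAt2_nonpos (convex_Ici b)
    (f' := fun a => (2 - r) * (p * a ^ (p - 1)) + κ * r * b * ((p - 1) * a ^ (p - 1 - 1)))
    (f'' := fun a => (2 - r) * (p * ((p - 1) * a ^ (p - 1 - 1))) +
      κ * r * b * ((p - 1) * ((p - 1 - 1) * a ^ (p - 1 - 1 - 1))))
  · apply Continuous.continuousOn
    have h1 : Continuous fun a : ℝ => a ^ p := Real.continuous_rpow_const (by linarith)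
    have h2 : Continuous fun a : ℝ => a ^ (p - 1) := Real.continuous_rpow_const (by linarith)
    fun_prop
  · intro a ha
    rw [interior_Ici, mem_Ioi] at ha
    have ha0 : a ≠ 0 := by linarith [hb.trans_lt ha]
    have h1 := (Real.hasDerivAt_rpow_const (p := p) (Or.inl ha0)).const_mul (2 - r)
    have h2 := (Real.hasDerivAt_rpow_const (p := p - 1) (Or.inl ha0)).const_mul (κ * r * b)
    exact (h1.add h2).hasDerivWithinAt
  · intro a ha
    rw [interior_Ici, mem_Ioi] at ha
    have ha0 : a ≠ 0 := by linarith [hb.trans_lt ha]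
    have h1 := ((Real.hasDerivAt_rpow_const (p := p - 1) (Or.inl ha0)).const_mul p).const_mul
      (2 - r)
    have h2 := ((Real.hasDerivAt_rpow_const (p := p - 1 - 1) (Or.inl ha0)).const_mul
      (p - 1)).const_mul (κ * r * b)
    exact (h1.add h2).hasDerivWithinAt
  · intro a ha
    rw [interior_Ici, mem_Ioi] at ha
    have ha0 : 0 < a := hb.trans_lt ha
    have e1 : a ^ (p - 1 - 1) = a ^ (p - 1 - 1 - 1) * a := by
      rw [← Real.rpow_add_one ha0.ne']; congr 1; ring
    have e2 : (2 - r) * (p * ((p - 1) * a ^ (p - 1 - 1))) +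
      κ * r * b * ((p - 1) * ((p - 1 - 1) * a ^ (p - 1 - 1 - 1))) =
      ((p - 1) * a ^ (p - 1 - 1 - 1)) * ((2 - r) * p * a + κ * r * (p - 2) * b) := by
      rw [e1]; ring
    rw [e2]
    apply mul_nonpos_of_nonneg_of_nonpos
    · have := Real.rpow_nonneg ha0.le (p - 1 - 1 - 1)
      exact mul_nonneg (by linarith) this
    · have h3 : (2 - r) * p * a ≤ (2 - r) * p * b := by
        apply mul_le_mul_of_nonpos_left ha.le
        nlinarith
      have h4 : ((2 - r) * p + κ * r * (p - 2)) * b ≤ 0 := mul_nonpos_of_nonpos_of_nonneg hκ hb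
      linarith

/-- Tangent line inequality for `x ^ p`. -/
lemma rpow_tangent {p x y : ℝ} (hp : 1 < p) (hx : 0 ≤ x) (hy : 0 ≤ y) :
    y ^ p + p * y ^ (p - 1) * (x - y) ≤ x ^ p := by
  rcases hy.eq_or_lt with h0 | hy
  · subst h0
    rw [Real.zero_rpow (by linarith), Real.zero_rpow (by linarith)]
    have := Real.rpow_nonneg hx p
    simpa using this
  have h1 := one_add_mul_self_le_rpow_one_add (s := x / y - 1)
    (by have : 0 ≤ x / y := by positivity
        linarith) hp.le
  have h2 : y ^ p = y * y ^ (p - 1) := by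
    rw [← Real.rpow_one_add' hy.le (by linarith)]; congr 1; ring
  have h3 : (1 + (x / y - 1)) ^ p = x ^ p / y ^ p := by
    rw [show 1 + (x / y - 1) = x / y by ring, Real.div_rpow hx hy.le]
  rw [h3, le_div_iff₀ (Real.rpow_pos_of_pos hy p)] at h1
  have h4 : (1 + p * (x / y - 1)) * y ^ p = y ^ p + p * y ^ (p - 1) * (x - y) := by
    rw [h2]; field_simp
  linarith

/-- Burkholder's function. -/
noncomputable def U (p r x y : ℝ) : ℝ := (|y| - (r - 1) * |x|) * (|x| + |y|) ^ (p - 1)

lemma rpow_eq_mul {p a : ℝ} (hp : 1 < p) (ha : 0 ≤ a) : a ^ p = a * a ^ (p - 1) := by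
  rw [← Real.rpow_one_add' ha (by linarith)]; congr 1; ring

lemma U_right {p r a b : ℝ} (hp : 1 < p) (hb : 0 ≤ b) (hab : b ≤ a) :
    2 * U p r ((a + b) / 2) ((a - b) / 2) = (2 - r) * a ^ p + (-1) * r * b * a ^ (p - 1) := by
  unfold U
  have ha : 0 ≤ a := hb.trans hab
  rw [abs_of_nonneg (by linarith : 0 ≤ (a + b) / 2), abs_of_nonneg (by linarith : 0 ≤ (a - b) / 2),
    show (a + b) / 2 + (a - b) / 2 = a by ring, rpow_eq_mul hp ha]
  ring

lemma U_left {p r a b : ℝ} (hp : 1 < p) (hb : 0 ≤ b) (hab : a ≤ -b) :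
    2 * U p r ((a + b) / 2) ((a - b) / 2) =
      (2 - r) * (-a) ^ p + 1 * r * b * (-a) ^ (p - 1) := by
  unfold U
  have ha : 0 ≤ -a := by linarith
  rw [abs_of_nonpos (by linarith : (a + b) / 2 ≤ 0), abs_of_nonpos (by linarith : (a - b) / 2 ≤ 0),
    show -((a + b) / 2) + -((a - b) / 2) = -a by ring, rpow_eq_mul hp ha]
  ring

lemma U_mid {p r a b : ℝ} (hp : 1 < p) (hb : 0 ≤ b) (hab : -b ≤ a) (hab' : a ≤ b) :
    2 * U p r ((a + b) / 2) ((a - b) / 2) = (2 - r) * b ^ p - r * b ^ (p - 1) * a := by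
  unfold U
  rw [abs_of_nonneg (by linarith : 0 ≤ (a + b) / 2), abs_of_nonpos (by linarith : (a - b) / 2 ≤ 0),
    show (a + b) / 2 + -((a - b) / 2) = b by ring, rpow_eq_mul hp hb]
  ring

/-- Concavity along one diagonal. -/
lemma concave_diag {p r b : ℝ} (hp : 1 < p) (hr1 : 2 * p ≤ r) (hr2 : 2 * p ≤ r * (p - 1))
    (hb : 0 ≤ b) :
    ConcaveOn ℝ univ (fun a : ℝ => 2 * U p r ((a + b) / 2) ((a - b) / 2)) := by
  set F : ℝ → ℝ := fun a : ℝ => 2 * U p r ((a + b) / 2) ((a - b) / 2) with hF
  have hr : 2 ≤ r := by linarith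
  have hR : ConcaveOn ℝ (Ici b) F := by
    have h := concaveOn_piece (κ := -1) hp hr hb (by nlinarith)
    refine h.congr ?_
    intro a ha
    exact (U_right hp hb ha).symm
  have hL : ConcaveOn ℝ (Iic (-b)) F := by
    have h := concaveOn_piece (κ := 1) hp hr hb (by nlinarith)
    refine ⟨convex_Iic _, ?_⟩
    intro x hx y hy s t hs ht hst
    have hx' : x ≤ -b := hx
    have hy' : y ≤ -b := hy
    have h3 := h.2 (x := -x) (y := -y) (by simp only [mem_Ici]; linarith)
      (by simp only [mem_Ici]; linarith) hs ht hst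
    have hz : s * x + t * y ≤ -b := by
      have := (convex_Iic (-b)) hx hy hs ht hst
      simpa using this
    simp only [hF, smul_eq_mul] at h3 ⊢
    rw [U_left hp hb hx', U_left hp hb hy', U_left hp hb hz]
    rw [show s * -x + t * -y = -(s * x + t * y) by ring] at h3
    exact h3
  have hM : ConcaveOn ℝ (Icc (-b) b) F := by
    refine ⟨convex_Icc _ _, ?_⟩
    intro x hx y hy s t hs ht hst
    have hz : s • x + t • y ∈ Icc (-b) b := (convex_Icc (-b) b) hx hy hs ht hst
    simp only [smul_eq_mul] at hz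
    simp only [hF, smul_eq_mul]
    rw [U_mid hp hb hx.1 hx.2, U_mid hp hb hy.1 hy.2, U_mid hp hb hz.1 hz.2]
    have : s = 1 - t := by linarith
    rw [this]
    apply le_of_eq
    ring
  -- the line
  have hline : ∀ a, F a ≤ (2 - r) * b ^ p - r * b ^ (p - 1) * a := by
    intro a
    rcases le_or_gt b a with h | h
    · have ha : 0 ≤ a := hb.trans h
      simp only [hF]
      rw [U_right hp hb h]
      have t1 := rpow_tangent hp ha hb
      have t2 : b ^ (p - 1) ≤ a ^ (p - 1) := Real.rpow_le_rpow hb h (by linarith)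
      have t3 : b ^ p = b * b ^ (p - 1) := rpow_eq_mul hp hb
      have t4 : 0 ≤ b ^ (p - 1) := Real.rpow_nonneg hb _
      have t5 : 0 ≤ b ^ (p - 1) * (a - b) := mul_nonneg t4 (by linarith)
      have t6 : (r - 2) * (p * b ^ (p - 1) * (a - b)) ≤ (r - 2) * (a ^ p - b ^ p) :=
        mul_le_mul_of_nonneg_left (by linarith) (by linarith)
      have t7 : r * b * b ^ (p - 1) ≤ r * b * a ^ (p - 1) :=
        mul_le_mul_of_nonneg_left t2 (by positivity)
      have t8 : 0 ≤ ((r - 2) * p - r) * (b ^ (p - 1) * (a - b)) :=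
        mul_nonneg (by nlinarith) t5
      nlinarith
    · rcases le_or_gt (-b) a with h' | h'
      · simp only [hF]
        rw [U_mid hp hb h' h.le]
      · simp only [hF]
        rw [U_left hp hb h'.le]
        set α : ℝ := -a with hα
        have hαb : b ≤ α := by linarith
        have hα0 : 0 ≤ α := hb.trans hαb
        have ha : a = -α := by rw [hα]; ring
        rw [ha]
        have t1 := rpow_tangent hp hb hα0
        have t3 : b ^ p = b * b ^ (p - 1) := rpow_eq_mul hp hb
        have t3' : α ^ p = α * α ^ (p - 1) := rpow_eq_mul hp hα0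
        have t4 : 0 ≤ b ^ (p - 1) := Real.rpow_nonneg hb _
        have t4' : 0 ≤ α ^ (p - 1) := Real.rpow_nonneg hα0 _
        have t5 : 0 ≤ b ^ (p - 1) * (α - b) := mul_nonneg t4 (by linarith)
        have t5' : 0 ≤ α ^ (p - 1) * (α - b) := mul_nonneg t4' (by linarith)
        have t8 : 0 ≤ (r - 2 * p) * (α ^ (p - 1) * (α - b)) := mul_nonneg (by linarith) t5'
        have t9 : 0 ≤ r * (b ^ (p - 1) * (α - b)) := mul_nonneg (by linarith) t5
        rw [t3, t3']
        rw [t3, t3'] at t1
        nlinarith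
  have hFb : F b = (2 - r) * b ^ p - r * b ^ (p - 1) * b := by
    simp only [hF]; exact U_mid hp hb (by linarith) le_rfl
  have hFb' : F (-b) = (2 - r) * b ^ p - r * b ^ (p - 1) * (-b) := by
    simp only [hF]; exact U_mid hp hb le_rfl (by linarith)
  have hRM : ConcaveOn ℝ (Ici (-b)) F := by
    apply concaveOn_glue (convex_Ici _) (c := b) (m := -(r * b ^ (p - 1)))
      (by simp only [mem_Ici]; linarith)
    · rw [Ici_inter_Iic]; exact hM
    · refine hR.subset inter_subset_right ?_
      exact (convex_Ici _).inter (convex_Ici _)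
    · intro x _
      have := hline x
      rw [hFb]
      linarith
  apply concaveOn_glue convex_univ (c := -b) (m := -(r * b ^ (p - 1))) (mem_univ _)
  · rw [univ_inter]; exact hL
  · rw [univ_inter]; exact hRM
  · intro x _
    have := hline x
    rw [hFb']
    linarith

lemma U_neg_neg (p r x y : ℝ) : U p r (-x) (-y) = U p r x y := by
  unfold U; rw [abs_neg, abs_neg]

lemma U_neg_right (p r x y : ℝ) : U p r x (-y) = U p r x y := by
  unfold U; rw [abs_neg]

lemma U_zigzag_aux {p r : ℝ} (hp : 1 < p) (hr1 : 2 * p ≤ r) (hr2 : 2 * p ≤ r * (p - 1))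
    {x y : ℝ} (h : ℝ) (hxy : y ≤ x) :
    U p r (x + h) (y + h) + U p r (x - h) (y - h) ≤ 2 * U p r x y := by
  have hc := concave_diag (b := x - y) hp hr1 hr2 (by linarith)
  have h3 := hc.2 (mem_univ (x + y + 2 * h)) (mem_univ (x + y - 2 * h))
    (by norm_num : (0 : ℝ) ≤ 1 / 2) (by norm_num : (0 : ℝ) ≤ 1 / 2) (by norm_num)
  simp only [smul_eq_mul] at h3
  rw [show (x + y + 2 * h + (x - y)) / 2 = x + h by ring,
    show (x + y + 2 * h - (x - y)) / 2 = y + h by ring,
    show (x + y - 2 * h + (x - y)) / 2 = x - h by ring,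
    show (x + y - 2 * h - (x - y)) / 2 = y - h by ring,
    show (1 / 2 * (x + y + 2 * h) + 1 / 2 * (x + y - 2 * h) + (x - y)) / 2 = x by ring,
    show (1 / 2 * (x + y + 2 * h) + 1 / 2 * (x + y - 2 * h) - (x - y)) / 2 = y by ring] at h3
  linarith

lemma U_zigzag {p r : ℝ} (hp : 1 < p) (hr1 : 2 * p ≤ r) (hr2 : 2 * p ≤ r * (p - 1))
    (x y h : ℝ) :
    U p r (x + h) (y + h) + U p r (x - h) (y - h) ≤ 2 * U p r x y := by
  rcases le_total y x with hxy | hxy
  · exact U_zigzag_aux hp hr1 hr2 h hxy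
  · have h3 := U_zigzag_aux (x := -x) (y := -y) hp hr1 hr2 (-h) (by linarith)
    rw [show -x + -h = -(x + h) by ring, show -y + -h = -(y + h) by ring,
      show -x - -h = -(x - h) by ring, show -y - -h = -(y - h) by ring,
      U_neg_neg, U_neg_neg, U_neg_neg] at h3
    exact h3

lemma U_zigzag' {p r : ℝ} (hp : 1 < p) (hr1 : 2 * p ≤ r) (hr2 : 2 * p ≤ r * (p - 1))
    (x y h : ℝ) :
    U p r (x + h) (y - h) + U p r (x - h) (y + h) ≤ 2 * U p r x y := by
  have h3 := U_zigzag hp hr1 hr2 x (-y) h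
  rw [show -y + h = -(y - h) by ring, show -y - h = -(y + h) by ring,
    U_neg_right, U_neg_right, U_neg_right] at h3
  exact h3

lemma U_start {p r : ℝ} (hr : 2 ≤ r) {x y : ℝ} (h : |y| ≤ |x|) : U p r x y ≤ 0 := by
  unfold U
  apply mul_nonpos_of_nonpos_of_nonneg
  · have := abs_nonneg x
    nlinarith
  · apply Real.rpow_nonneg
    positivity

/-- The constant in the majorisation. -/
noncomputable def burkC (p r : ℝ) : ℝ :=
  2 * ((r - 1) * (2 * r - 1) ^ (p - 1)) + (2 * (r - 1)) ^ p

lemma burkC_nonneg {p r : ℝ} (hr : 2 ≤ r) : 0 ≤ burkC p r := by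
  unfold burkC
  have h1 : 0 ≤ (2 * r - 1) ^ (p - 1) := Real.rpow_nonneg (by linarith) _
  have h2 : 0 ≤ (2 * (r - 1)) ^ p := Real.rpow_nonneg (by linarith) _
  have h3 : 0 ≤ (r - 1) * (2 * r - 1) ^ (p - 1) := mul_nonneg (by linarith) h1
  linarith

lemma U_lower {p r : ℝ} (hp : 1 < p) (hr : 2 ≤ r) (x y : ℝ) :
    |y| ^ p ≤ burkC p r * |x| ^ p + 2 * U p r x y := by
  unfold U
  set X : ℝ := |x| with hX
  set Y : ℝ := |y| with hY
  have hX0 : 0 ≤ X := abs_nonneg _
  have hY0 : 0 ≤ Y := abs_nonneg _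
  rcases le_or_gt (2 * (r - 1) * X) Y with h | h
  · have h1 : Y ^ (p - 1) ≤ (X + Y) ^ (p - 1) := Real.rpow_le_rpow hY0 (by linarith) (by linarith)
    have h2 : Y / 2 * Y ^ (p - 1) ≤ (Y - (r - 1) * X) * (X + Y) ^ (p - 1) := by
      apply mul_le_mul (by linarith) h1 (Real.rpow_nonneg hY0 _)
      nlinarith
    have h3 : Y ^ p = Y * Y ^ (p - 1) := rpow_eq_mul hp hY0
    have h4 : 0 ≤ burkC p r * X ^ p := mul_nonneg (burkC_nonneg hr) (Real.rpow_nonneg hX0 _)
    linarith
  · have h1 : Y ^ p ≤ (2 * (r - 1)) ^ p * X ^ p := by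
      rw [← Real.mul_rpow (by linarith) hX0]
      exact Real.rpow_le_rpow hY0 h.le (by linarith)
    have h2 : (X + Y) ^ (p - 1) ≤ (2 * r - 1) ^ (p - 1) * X ^ (p - 1) := by
      rw [← Real.mul_rpow (by linarith) hX0]
      exact Real.rpow_le_rpow (by linarith) (by linarith) (by linarith)
    have h3 : X ^ p = X * X ^ (p - 1) := rpow_eq_mul hp hX0
    have h4 : -((r - 1) * X) * (X + Y) ^ (p - 1) ≤ (Y - (r - 1) * X) * (X + Y) ^ (p - 1) := by
      apply mul_le_mul_of_nonneg_right (by linarith)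
      exact Real.rpow_nonneg (by linarith) _
    have h5 : ((r - 1) * X) * (X + Y) ^ (p - 1) ≤
        ((r - 1) * X) * ((2 * r - 1) ^ (p - 1) * X ^ (p - 1)) := by
      apply mul_le_mul_of_nonneg_left h2
      exact mul_nonneg (by linarith) hX0
    have h6 : burkC p r * X ^ p = 2 * (((r - 1) * X) * ((2 * r - 1) ^ (p - 1) * X ^ (p - 1))) +
        (2 * (r - 1)) ^ p * X ^ p := by
      unfold burkC
      rw [h3]; ring
    linarith

end Pool.Agent.Lib.MP_877d49_an
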