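import Pool.Agent.Lib.MP_877d49_an.Defs
import Pool.Agent.Lib.MP_877d49_an.Burkholder

/-!
# Finite Haar sums as arrays of values on dyadic intervals
-/

namespace Pool.Agent.Lib.MP_877d49_an

open Finset

/-- The coefficient at level `n`, position `k` (zero outside the range). -/
def cf {E : Type*} [Zero E] (c : HaarIndex → E) (n k : ℕ) : E :=
  if h : k < 2 ^ n then c (some ⟨n, ⟨k, h⟩⟩) else 0

/-- The finite set of indices of level `< n`. -/
def lev (n : ℕ) : Finset HaarIndex :=
  insertNone ((range n).sigma fun _ => Finset.univ)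

lemma mem_lev_none (n : ℕ) : (none : HaarIndex) ∈ lev n := by simp [lev]

lemma mem_lev_some {n m : ℕ} {k : Fin (2 ^ m)} : (some ⟨m, k⟩ : HaarIndex) ∈ lev n ↔ m < n := by
  simp [lev]

lemma lev_mono {m n : ℕ} (h : m ≤ n) : lev m ⊆ lev n := by
  intro j hj
  match j with
  | none => exact mem_lev_none n
  | some ⟨l, k⟩ => rw [mem_lev_some] at hj ⊢; omega

lemma exists_lev (S : Finset HaarIndex) : ∃ n, S ⊆ lev n := by
  classical
  induction S using Finset.induction_on with
  | empty => exact ⟨0, by simp⟩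
  | insert j S _ ih =>
    obtain ⟨n, hn⟩ := ih
    match j with
    | none =>
      refine ⟨n, ?_⟩
      intro i hi
      rcases Finset.mem_insert.mp hi with rfl | hi
      · exact mem_lev_none n
      · exact hn hi
    | some ⟨l, k⟩ =>
      refine ⟨max n (l + 1), ?_⟩
      intro i hi
      rcases Finset.mem_insert.mp hi with rfl | hi
      · rw [mem_lev_some]; omega
      · exact lev_mono (le_max_left _ _) (hn hi)

lemma sum_lev {M : Type*} [AddCommMonoid M] (F : HaarIndex → M) (n : ℕ) :
    ∑ j ∈ lev n, F j = F none + ∑ m ∈ range n, ∑ k ∈ range (2 ^ m), cf F m k := by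
  unfold lev
  rw [Finset.sum_insertNone, Finset.sum_sigma]
  congr 1
  apply Finset.sum_congr rfl
  intro m _
  rw [← Fin.sum_univ_eq_sum_range]
  apply Finset.sum_congr rfl
  intro k _
  unfold cf
  rw [dif_pos k.2]

lemma sum_lev_succ {M : Type*} [AddCommMonoid M] (F : HaarIndex → M) (n : ℕ) :
    ∑ j ∈ lev (n + 1), F j = ∑ j ∈ lev n, F j + ∑ k ∈ range (2 ^ n), cf F n k := by
  rw [sum_lev, sum_lev, Finset.sum_range_succ, add_assoc]

lemma sum_lev_zero {M : Type*} [AddCommMonoid M] (F : HaarIndex → M) :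
    ∑ j ∈ lev 0, F j = F none := by
  rw [sum_lev]; simp

lemma sum_range_double {M : Type*} [AddCommMonoid M] (F : ℕ → M) (N : ℕ) :
    ∑ m ∈ range (2 * N), F m = ∑ k ∈ range N, (F (2 * k) + F (2 * k + 1)) := by
  induction N with
  | zero => simp
  | succ N ih =>
    rw [show 2 * (N + 1) = 2 * N + 1 + 1 by ring, Finset.sum_range_succ, Finset.sum_range_succ,
      Finset.sum_range_succ, ih, add_assoc]

section values

variable {𝕜 : Type*} [RCLike 𝕜]

/-- The value on the `m`-th dyadic interval of level `n` of the Haar sum with coefficients `c`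
over the levels `< n`; `ρ = 2 ^ (1/p)`. -/
noncomputable def val (ρ : ℝ) (c : HaarIndex → 𝕜) : ℕ → ℕ → 𝕜
  | 0, _ => c none
  | n + 1, m => val ρ c n (m / 2) +
      (if m % 2 = 0 then ((ρ ^ n : ℝ) : 𝕜) else -((ρ ^ n : ℝ) : 𝕜)) * cf c n (m / 2)

lemma val_zero (ρ : ℝ) (c : HaarIndex → 𝕜) (m : ℕ) : val ρ c 0 m = c none := rfl

lemma val_even (ρ : ℝ) (c : HaarIndex → 𝕜) (n k : ℕ) :
    val ρ c (n + 1) (2 * k) = val ρ c n k + ((ρ ^ n : ℝ) : 𝕜) * cf c n k := by
  have h1 : 2 * k / 2 = k := by omega
  have h2 : 2 * k % 2 = 0 := by omega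
  rw [val, h1, h2, if_pos rfl]

lemma val_odd (ρ : ℝ) (c : HaarIndex → 𝕜) (n k : ℕ) :
    val ρ c (n + 1) (2 * k + 1) = val ρ c n k - ((ρ ^ n : ℝ) : 𝕜) * cf c n k := by
  have h1 : (2 * k + 1) / 2 = k := by omega
  have h2 : (2 * k + 1) % 2 = 1 := by omega
  rw [val, h1, h2, if_neg (by norm_num)]
  ring

lemma cf_congr {E : Type*} [Zero E] {c c' : HaarIndex → E} {n N : ℕ} (hn : n < N)
    (h : ∀ j ∈ lev N, c j = c' j) (k : ℕ) : cf c n k = cf c' n k := by
  unfold cf
  split_ifs with hk
  · exact h _ (mem_lev_some.mpr hn)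
  · rfl

lemma val_congr {ρ : ℝ} {c c' : HaarIndex → 𝕜} {n : ℕ} (h : ∀ j ∈ lev n, c j = c' j) (m : ℕ) :
    val ρ c n m = val ρ c' n m := by
  induction n generalizing m with
  | zero => exact h none (mem_lev_none 0)
  | succ n ih =>
    rw [val, val, ih (fun j hj => h j (lev_mono (Nat.le_succ n) hj)),
      cf_congr (Nat.lt_succ_self n) h]

lemma cf_add (c c' : HaarIndex → 𝕜) (n k : ℕ) : cf (c + c') n k = cf c n k + cf c' n k := by
  unfold cf; split_ifs <;> simp

lemma cf_smul (r : 𝕜) (c : HaarIndex → 𝕜) (n k : ℕ) : cf (r • c) n k = r * cf c n k := by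
  unfold cf; split_ifs <;> simp

lemma val_add (ρ : ℝ) (c c' : HaarIndex → 𝕜) (n m : ℕ) :
    val ρ (c + c') n m = val ρ c n m + val ρ c' n m := by
  induction n generalizing m with
  | zero => rfl
  | succ n ih => rw [val, val, val, ih, cf_add]; ring

lemma val_smul (ρ : ℝ) (r : 𝕜) (c : HaarIndex → 𝕜) (n m : ℕ) :
    val ρ (r • c) n m = r * val ρ c n m := by
  induction n generalizing m with
  | zero => rfl
  | succ n ih => rw [val, val, ih, cf_smul]; ring

/-- The values determine the coefficients. -/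
lemma val_inj {ρ : ℝ} (hρ : 0 < ρ) {c c' : HaarIndex → 𝕜} {n : ℕ}
    (h : ∀ m < 2 ^ n, val ρ c n m = val ρ c' n m) : ∀ j ∈ lev n, c j = c' j := by
  induction n with
  | zero =>
    intro j hj
    match j with
    | none => exact h 0 (by norm_num)
    | some ⟨l, k⟩ => rw [mem_lev_some] at hj; omega
  | succ n ih =>
    have h2 : ∀ k < 2 ^ n, val ρ c n k = val ρ c' n k ∧ cf c n k = cf c' n k := by
      intro k hk
      have e1 := h (2 * k) (by rw [pow_succ]; omega)
      have e2 := h (2 * k + 1) (by rw [pow_succ]; omega)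
      rw [val_even, val_even] at e1
      rw [val_odd, val_odd] at e2
      have hρ' : ((ρ ^ n : ℝ) : 𝕜) ≠ 0 := by
        rw [Ne, RCLike.ofReal_eq_zero]; positivity
      constructor
      · linear_combination (e1 + e2) / 2
      · have : ((ρ ^ n : ℝ) : 𝕜) * cf c n k = ((ρ ^ n : ℝ) : 𝕜) * cf c' n k := by
          linear_combination (e1 - e2) / 2
        exact mul_left_cancel₀ hρ' this
    intro j hj
    match j with
    | none => exact ih (fun m hm => (h2 m hm).1) none (mem_lev_none n)
    | some ⟨l, k⟩ =>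
      rw [mem_lev_some] at hj
      rcases Nat.lt_succ_iff_lt_or_eq.mp hj with hl | hl
      · exact ih (fun m hm => (h2 m hm).1) _ (mem_lev_some.mpr hl)
      · subst hl
        have := (h2 k k.2).2
        unfold cf at this
        rw [dif_pos k.2, dif_pos k.2] at this
        exact this

/-- The `p`-th power of the `L_p` norm of the step function with values `F` on the dyadic
intervals of level `n`. -/
noncomputable def pw (p : ℝ) (n : ℕ) (F : ℕ → 𝕜) : ℝ := (∑ m ∈ range (2 ^ n), ‖F m‖ ^ p) / 2 ^ n

lemma pw_nonneg (p : ℝ) (n : ℕ) (F : ℕ → 𝕜) : 0 ≤ pw p n F := by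
  unfold pw
  apply div_nonneg _ (by positivity)
  exact Finset.sum_nonneg fun m _ => Real.rpow_nonneg (norm_nonneg _) _

lemma pw_mono {𝕜' : Type*} [RCLike 𝕜'] {p : ℝ} (hp : 0 < p) {n : ℕ} {F : ℕ → 𝕜} {G : ℕ → 𝕜'}
    (h : ∀ m < 2 ^ n, ‖F m‖ ≤ ‖G m‖) : pw p n F ≤ pw p n G := by
  unfold pw
  apply div_le_div_of_nonneg_right _ (by positivity)
  apply Finset.sum_le_sum
  intro m hm
  exact Real.rpow_le_rpow (norm_nonneg _) (h m (Finset.mem_range.mp hm)) hp.le

end values

section burkholder

/-- Burkholder's inequality for sign changes of real Haar coefficients. -/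
lemma sum_U_nonpos {p r ρ : ℝ} (hp : 1 < p) (hr1 : 2 * p ≤ r) (hr2 : 2 * p ≤ r * (p - 1))
    {a c : HaarIndex → ℝ} (h : ∀ j, c j = a j ∨ c j = -a j) (n : ℕ) :
    ∑ m ∈ range (2 ^ n), U p r (val ρ a n m) (val ρ c n m) ≤ 0 := by
  have hcf : ∀ n k, cf c n k = cf a n k ∨ cf c n k = -cf a n k := by
    intro n k
    unfold cf
    split_ifs
    · exact h _
    · simp
  induction n with
  | zero =>
    simp only [pow_zero, Finset.range_one, Finset.sum_singleton, val_zero]
    apply U_start (by linarith)
    rcases h none with h | h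
    · rw [h]
    · rw [h, abs_neg]
  | succ n ih =>
    rw [pow_succ, mul_comm, sum_range_double]
    have : ∀ k ∈ range (2 ^ n), U p r (val ρ a (n + 1) (2 * k)) (val ρ c (n + 1) (2 * k)) +
        U p r (val ρ a (n + 1) (2 * k + 1)) (val ρ c (n + 1) (2 * k + 1)) ≤
        2 * U p r (val ρ a n k) (val ρ c n k) := by
      intro k _
      rw [val_even, val_even, val_odd, val_odd]
      simp only [RCLike.ofReal_real_eq_id, id]
      rcases hcf n k with h | h
      · rw [h]; exact U_zigzag hp hr1 hr2 _ _ _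
      · rw [h, mul_neg, sub_neg_eq_add, ← sub_eq_add_neg]
        exact U_zigzag' hp hr1 hr2 _ _ _
    refine (Finset.sum_le_sum this).trans ?_
    rw [← Finset.mul_sum]
    linarith

lemma pw_sign {p r ρ : ℝ} (hp : 1 < p) (hr1 : 2 * p ≤ r) (hr2 : 2 * p ≤ r * (p - 1))
    {a c : HaarIndex → ℝ} (h : ∀ j, c j = a j ∨ c j = -a j) (n : ℕ) :
    pw p n (val ρ c n) ≤ burkC p r * pw p n (val ρ a n) := by
  have h1 := sum_U_nonpos (ρ := ρ) hp hr1 hr2 h n
  have h2 : ∑ m ∈ range (2 ^ n), ‖val ρ c n m‖ ^ p ≤
      burkC p r * ∑ m ∈ range (2 ^ n), ‖val ρ a n m‖ ^ p +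
        2 * ∑ m ∈ range (2 ^ n), U p r (val ρ a n m) (val ρ c n m) := by
    rw [Finset.mul_sum, Finset.mul_sum, ← Finset.sum_add_distrib]
    apply Finset.sum_le_sum
    intro m _
    rw [Real.norm_eq_abs, Real.norm_eq_abs]
    exact U_lower hp (by linarith) _ _
  unfold pw
  rw [← mul_div_assoc]
  apply div_le_div_of_nonneg_right _ (by positivity)
  linarith

lemma pw_convex {p ρ : ℝ} (hp : 1 ≤ p) (n : ℕ) (c c' : HaarIndex → ℝ) {s : ℝ} (hs0 : 0 ≤ s)
    (hs1 : s ≤ 1) {M : ℝ} (h : pw p n (val ρ c n) ≤ M) (h' : pw p n (val ρ c' n) ≤ M) :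
    pw p n (val ρ ((1 - s) • c + s • c') n) ≤ M := by
  have key : pw p n (val ρ ((1 - s) • c + s • c') n) ≤
      (1 - s) * pw p n (val ρ c n) + s * pw p n (val ρ c' n) := by
    unfold pw
    rw [mul_div_assoc', mul_div_assoc', ← add_div]
    apply div_le_div_of_nonneg_right _ (by positivity)
    rw [Finset.mul_sum, Finset.mul_sum, ← Finset.sum_add_distrib]
    apply Finset.sum_le_sum
    intro m _
    rw [val_add, val_smul, val_smul]
    have h1 : ‖(1 - s) * val ρ c n m + s * val ρ c' n m‖ ≤
        (1 - s) * ‖val ρ c n m‖ + s * ‖val ρ c' n m‖ := by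
      refine (norm_add_le _ _).trans ?_
      rw [norm_mul, norm_mul, Real.norm_of_nonneg hs0, Real.norm_of_nonneg (by linarith)]
    have h2 := (convexOn_rpow hp).2 (x := ‖val ρ c n m‖) (y := ‖val ρ c' n m‖)
      (by simp) (by simp) (by linarith : 0 ≤ 1 - s) hs0 (by ring)
    simp only [smul_eq_mul] at h2
    exact (Real.rpow_le_rpow (norm_nonneg _) h1 (by linarith)).trans h2
  nlinarith

/-- Burkholder's inequality for real coefficients bounded by the given ones. -/
lemma pw_real {p r ρ : ℝ} (hp : 1 < p) (hr1 : 2 * p ≤ r) (hr2 : 2 * p ≤ r * (p - 1))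
    {a c : HaarIndex → ℝ} (h : ∀ j, |c j| ≤ |a j|) (n : ℕ) :
    pw p n (val ρ c n) ≤ burkC p r * pw p n (val ρ a n) := by
  classical
  have key : ∀ T : Finset HaarIndex, ∀ c : HaarIndex → ℝ, (∀ j, |c j| ≤ |a j|) →
      (∀ j, j ∉ T → c j = a j ∨ c j = -a j) →
      pw p n (val ρ c n) ≤ burkC p r * pw p n (val ρ a n) := by
    intro T
    induction T using Finset.induction_on with
    | empty =>
      intro c _ hc
      exact pw_sign hp hr1 hr2 (fun j => hc j (by simp)) n
    | insert i T _ ih =>
      intro c hc1 hc2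
      -- `c i = (1 - s) a i + s (- a i)`
      obtain ⟨s, hs0, hs1, hs⟩ : ∃ s : ℝ, 0 ≤ s ∧ s ≤ 1 ∧ c i = (1 - s) * a i + s * (-a i) := by
        by_cases ha : a i = 0
        · refine ⟨0, le_rfl, zero_le_one, ?_⟩
          have := hc1 i
          rw [ha, abs_zero] at this
          have : c i = 0 := abs_eq_zero.mp (le_antisymm this (abs_nonneg _))
          rw [this, ha]; ring
        · have h1 : |c i / a i| ≤ 1 := by
            rw [abs_div, div_le_one (abs_pos.mpr ha)]
            exact hc1 i
          rw [abs_le] at h1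
          refine ⟨(1 - c i / a i) / 2, by linarith, by linarith, ?_⟩
          field_simp
          ring
      have e : c = (1 - s) • (Function.update c i (a i)) + s • (Function.update c i (-a i)) := by
        funext j
        by_cases hj : j = i
        · subst hj
          simp only [Pi.add_apply, Pi.smul_apply, Function.update_self, smul_eq_mul]
          exact hs
        · simp only [Pi.add_apply, Pi.smul_apply, Function.update_of_ne hj, smul_eq_mul]
          ring
      rw [e]
      apply pw_convex hp.le n _ _ hs0 hs1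
      · apply ih
        · intro j
          by_cases hj : j = i
          · subst hj; simp
          · rw [Function.update_of_ne hj]; exact hc1 j
        · intro j hj
          by_cases hji : j = i
          · subst hji; left; simp
          · rw [Function.update_of_ne hji]
            exact hc2 j (by simp [hj, hji])
      · apply ih
        · intro j
          by_cases hj : j = i
          · subst hj; simp
          · rw [Function.update_of_ne hj]; exact hc1 j
        · intro j hj
          by_cases hji : j = i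
          · subst hji; right; simp
          · rw [Function.update_of_ne hji]
            exact hc2 j (by simp [hj, hji])
  -- replace `c` off `lev n`
  have h1 := key (lev n) (fun j => if j ∈ lev n then c j else a j)
    (fun j => by
      by_cases hj : j ∈ lev n
      · simp only [hj, if_true]; exact h j
      · simp only [hj, if_false]; exact le_rfl)
    (fun j hj => by simp only [hj, if_false]; left; trivial)
  have h2 : ∀ m, val ρ (fun j => if j ∈ lev n then c j else a j) n m = val ρ c n m := by
    intro m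
    apply val_congr
    intro j hj
    simp only [hj, if_true]
  have h3 : pw p n (val ρ (fun j => if j ∈ lev n then c j else a j) n) = pw p n (val ρ c n) := by
    unfold pw
    simp only [h2]
  rw [← h3]
  exact h1

end burkholder

end Pool.Agent.Lib.MP_877d49_an
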