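import Pool.Agent.Lib.MP_877d49_an.Arrays

/-!
# Finite Haar sums as arrays: unconditionality over `𝕜` and democracy
-/

namespace Pool.Agent.Lib.MP_877d49_an

open Finset

section

variable {𝕜 : Type*} [RCLike 𝕜]

lemma cf_ofReal (x : HaarIndex → ℝ) (n k : ℕ) :
    cf (fun j => ((x j : ℝ) : 𝕜)) n k = ((cf x n k : ℝ) : 𝕜) := by
  unfold cf; split_ifs <;> simp

lemma val_ofReal (ρ : ℝ) (x : HaarIndex → ℝ) (n m : ℕ) :
    val ρ (fun j => ((x j : ℝ) : 𝕜)) n m = ((val ρ x n m : ℝ) : 𝕜) := by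
  induction n generalizing m with
  | zero => rfl
  | succ n ih =>
    rw [val, val, ih, cf_ofReal]
    split_ifs <;> simp

lemma cf_re (a : HaarIndex → 𝕜) (n k : ℕ) :
    cf (fun j => RCLike.re (a j)) n k = RCLike.re (cf a n k) := by
  unfold cf; split_ifs <;> simp

lemma cf_im (a : HaarIndex → 𝕜) (n k : ℕ) :
    cf (fun j => RCLike.im (a j)) n k = RCLike.im (cf a n k) := by
  unfold cf; split_ifs <;> simp

lemma val_re (ρ : ℝ) (a : HaarIndex → 𝕜) (n m : ℕ) :
    val ρ (fun j => RCLike.re (a j)) n m = RCLike.re (val ρ a n m) := by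
  induction n generalizing m with
  | zero => rfl
  | succ n ih =>
    rw [val, val, ih, cf_re]
    split_ifs
    · simp only [map_add, RCLike.re_ofReal_mul, RCLike.ofReal_real_eq_id, id]
    · simp only [map_add, neg_mul, map_neg, RCLike.re_ofReal_mul, RCLike.ofReal_real_eq_id, id]

lemma val_im (ρ : ℝ) (a : HaarIndex → 𝕜) (n m : ℕ) :
    val ρ (fun j => RCLike.im (a j)) n m = RCLike.im (val ρ a n m) := by
  induction n generalizing m with
  | zero => rfl
  | succ n ih =>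
    rw [val, val, ih, cf_im]
    split_ifs
    · simp only [map_add, RCLike.im_ofReal_mul, RCLike.ofReal_real_eq_id, id]
    · simp only [map_add, neg_mul, map_neg, RCLike.im_ofReal_mul, RCLike.ofReal_real_eq_id, id]

lemma four_rpow {p : ℝ} (hp : 1 ≤ p) {x1 x2 x3 x4 z : ℝ} (h1 : 0 ≤ x1) (h2 : 0 ≤ x2)
    (h3 : 0 ≤ x3) (h4 : 0 ≤ x4) (hz : 0 ≤ z) (h : z ≤ x1 + x2 + x3 + x4) :
    z ^ p ≤ (4 : ℝ) ^ (p - 1) * (x1 ^ p + x2 ^ p + x3 ^ p + x4 ^ p) := by
  have := Real.rpow_sum_le_const_mul_sum_rpow (Finset.univ : Finset (Fin 4)) ![x1, x2, x3, x4] hp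
  simp only [Fin.sum_univ_four, Matrix.cons_val_zero, Matrix.cons_val_one, Matrix.cons_val,
    Finset.card_univ, Fintype.card_fin, abs_of_nonneg h1, abs_of_nonneg h2, abs_of_nonneg h3,
    abs_of_nonneg h4] at this
  refine (Real.rpow_le_rpow hz h (by linarith)).trans ?_
  exact_mod_cast this

lemma norm_le_re_im (z : 𝕜) : ‖z‖ ≤ |RCLike.re z| + |RCLike.im z| := by
  have h1 : ‖z‖ ^ 2 = RCLike.re z * RCLike.re z + RCLike.im z * RCLike.im z :=
    RCLike.norm_sq_eq_def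
  have h2 := abs_nonneg (RCLike.re z)
  have h3 := abs_nonneg (RCLike.im z)
  have h4 := abs_mul_abs_self (RCLike.re z)
  have h5 := abs_mul_abs_self (RCLike.im z)
  apply le_of_sq_le_sq _ (by positivity)
  nlinarith

/-- Unconditionality of the Haar system, on the level of arrays. -/
lemma pw_unc {p r ρ : ℝ} (hp : 1 < p) (hr1 : 2 * p ≤ r) (hr2 : 2 * p ≤ r * (p - 1))
    {a c : HaarIndex → 𝕜} (h : ∀ j, ‖c j‖ ≤ ‖a j‖) (n : ℕ) :
    pw p n (val ρ c n) ≤ (4 : ℝ) ^ p * burkC p r * pw p n (val ρ a n) := by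
  set θ : HaarIndex → 𝕜 := fun j => c j / a j with hθ
  have hca : ∀ j, c j = θ j * a j := by
    intro j
    by_cases ha : a j = 0
    · have := h j
      rw [ha, norm_zero] at this
      have hc : c j = 0 := norm_eq_zero.mp (le_antisymm this (norm_nonneg _))
      rw [hc, ha, mul_zero]
    · simp only [hθ]; rw [div_mul_cancel₀ _ ha]
  have hθ1 : ∀ j, ‖θ j‖ ≤ 1 := by
    intro j
    simp only [hθ, norm_div]
    exact div_le_one_of_le₀ (h j) (norm_nonneg _)
  have hre : ∀ j, |RCLike.re (θ j)| ≤ 1 := fun j => (RCLike.abs_re_le_norm _).trans (hθ1 j)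
  have him : ∀ j, |RCLike.im (θ j)| ≤ 1 := fun j => (RCLike.abs_im_le_norm _).trans (hθ1 j)
  set u : HaarIndex → ℝ := fun j => RCLike.re (a j) with hu
  set v : HaarIndex → ℝ := fun j => RCLike.im (a j) with hv
  set c1 : HaarIndex → ℝ := fun j => RCLike.re (θ j) * u j with hc1
  set c2 : HaarIndex → ℝ := fun j => RCLike.im (θ j) * v j with hc2
  set c3 : HaarIndex → ℝ := fun j => RCLike.re (θ j) * v j with hc3
  set c4 : HaarIndex → ℝ := fun j => RCLike.im (θ j) * u j with hc4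
  have hmul : ∀ (x y : HaarIndex → ℝ), (∀ j, |x j| ≤ 1) → ∀ j, |x j * y j| ≤ |y j| := by
    intro x y hx j
    rw [abs_mul]
    calc |x j| * |y j| ≤ 1 * |y j| := mul_le_mul_of_nonneg_right (hx j) (abs_nonneg _)
      _ = |y j| := one_mul _
  have b1 := pw_real (ρ := ρ) hp hr1 hr2 (a := u) (c := c1) (hmul _ _ hre) n
  have b2 := pw_real (ρ := ρ) hp hr1 hr2 (a := v) (c := c2) (hmul _ _ him) n
  have b3 := pw_real (ρ := ρ) hp hr1 hr2 (a := v) (c := c3) (hmul _ _ hre) n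
  have b4 := pw_real (ρ := ρ) hp hr1 hr2 (a := u) (c := c4) (hmul _ _ him) n
  have hC : 0 ≤ burkC p r := burkC_nonneg (by linarith)
  have hU : pw p n (val ρ u n) ≤ pw p n (val ρ a n) := by
    apply pw_mono (by linarith)
    intro m _
    rw [hu, val_re, Real.norm_eq_abs]
    exact RCLike.abs_re_le_norm _
  have hV : pw p n (val ρ v n) ≤ pw p n (val ρ a n) := by
    apply pw_mono (by linarith)
    intro m _
    rw [hv, val_im, Real.norm_eq_abs]
    exact RCLike.abs_im_le_norm _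
  -- pointwise decomposition
  have hdec : ∀ m, ‖val ρ c n m‖ ≤ ‖val ρ c1 n m‖ + ‖val ρ c2 n m‖ + ‖val ρ c3 n m‖ +
      ‖val ρ c4 n m‖ := by
    intro m
    have hre' : (fun j => RCLike.re (c j)) = c1 + (-1 : ℝ) • c2 := by
      funext j
      simp only [hca j, RCLike.mul_re, Pi.add_apply, Pi.smul_apply, smul_eq_mul, hc1, hc2, hu, hv]
      ring
    have him' : (fun j => RCLike.im (c j)) = c3 + c4 := by
      funext j
      simp only [hca j, RCLike.mul_im, Pi.add_apply, hc3, hc4, hu, hv]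
    have e1 : RCLike.re (val ρ c n m) = val ρ c1 n m - val ρ c2 n m := by
      rw [← val_re, hre', val_add, val_smul]; ring
    have e2 : RCLike.im (val ρ c n m) = val ρ c3 n m + val ρ c4 n m := by
      rw [← val_im, him', val_add]
    have e3 := norm_le_re_im (val ρ c n m)
    rw [e1, e2] at e3
    have e4 := abs_sub (val ρ c1 n m) (val ρ c2 n m)
    have e5 := abs_add_le (val ρ c3 n m) (val ρ c4 n m)
    simp only [Real.norm_eq_abs]
    linarith
  have hsum : pw p n (val ρ c n) ≤ (4 : ℝ) ^ (p - 1) * (pw p n (val ρ c1 n) +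
      pw p n (val ρ c2 n) + pw p n (val ρ c3 n) + pw p n (val ρ c4 n)) := by
    unfold pw
    rw [← add_div, ← add_div, ← add_div, mul_div_assoc']
    apply div_le_div_of_nonneg_right _ (by positivity)
    rw [← Finset.sum_add_distrib, ← Finset.sum_add_distrib, ← Finset.sum_add_distrib,
      Finset.mul_sum]
    apply Finset.sum_le_sum
    intro m _
    exact four_rpow hp.le (norm_nonneg _) (norm_nonneg _) (norm_nonneg _) (norm_nonneg _)
      (norm_nonneg _) (hdec m)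
  have h4 : (4 : ℝ) ^ p = 4 * (4 : ℝ) ^ (p - 1) := rpow_eq_mul hp (by norm_num)
  have h5 : 0 ≤ (4 : ℝ) ^ (p - 1) := Real.rpow_nonneg (by norm_num) _
  have h6 : pw p n (val ρ c1 n) + pw p n (val ρ c2 n) + pw p n (val ρ c3 n) +
      pw p n (val ρ c4 n) ≤ 4 * (burkC p r * pw p n (val ρ a n)) := by
    have hU' := mul_le_mul_of_nonneg_left hU hC
    have hV' := mul_le_mul_of_nonneg_left hV hC
    linarith
  have h7 := mul_le_mul_of_nonneg_left h6 h5
  rw [h4]
  linarith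

/-- auxiliary array for the upper democracy estimate -/
noncomputable def qv (b : HaarIndex → ℝ) : ℕ → ℕ → ℝ
  | 0, _ => b none
  | n + 1, m => qv b n (m / 2) + 2 ^ n * cf b n (m / 2)

lemma qv_even (b : HaarIndex → ℝ) (n k : ℕ) :
    qv b (n + 1) (2 * k) = qv b n k + 2 ^ n * cf b n k := by
  have h1 : 2 * k / 2 = k := by omega
  rw [qv, h1]

lemma qv_odd (b : HaarIndex → ℝ) (n k : ℕ) :
    qv b (n + 1) (2 * k + 1) = qv b n k + 2 ^ n * cf b n k := by
  have h1 : (2 * k + 1) / 2 = k := by omega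
  rw [qv, h1]

lemma sum_qv (b : HaarIndex → ℝ) (n : ℕ) :
    ∑ m ∈ range (2 ^ n), qv b n m = 2 ^ n * ∑ j ∈ lev n, b j := by
  induction n with
  | zero => simp [sum_lev_zero, qv]
  | succ n ih =>
    rw [pow_succ, mul_comm, sum_range_double]
    simp only [qv_even, qv_odd]
    rw [sum_lev_succ]
    have : ∀ k ∈ range (2 ^ n), (qv b n k + 2 ^ n * cf b n k) + (qv b n k + 2 ^ n * cf b n k) =
        2 * qv b n k + 2 * 2 ^ n * cf b n k := fun k _ => by ring
    rw [Finset.sum_congr rfl this, Finset.sum_add_distrib, ← Finset.mul_sum, ← Finset.mul_sum, ih]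
    ring

lemma val_crude {ρ : ℝ} (hρ : 1 < ρ) {c : HaarIndex → 𝕜} (hc : ∀ j, ‖c j‖ ≤ 1) (n m : ℕ) :
    ‖val ρ c n m‖ ≤ ρ / (ρ - 1) * ρ ^ n := by
  have h1 : 0 < ρ - 1 := by linarith
  have hK : 1 ≤ ρ / (ρ - 1) := by rw [le_div_iff₀ h1]; linarith
  have hK2 : ρ / (ρ - 1) * ρ = ρ / (ρ - 1) + ρ := by field_simp; ring
  induction n generalizing m with
  | zero => rw [val_zero, pow_zero, mul_one]; exact (hc none).trans hK
  | succ n ih =>
    have h2 : ‖val ρ c (n + 1) m‖ ≤ ‖val ρ c n (m / 2)‖ + ρ ^ n * ‖cf c n (m / 2)‖ := by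
      rw [val]
      refine (norm_add_le _ _).trans ?_
      rw [norm_mul]
      have : ‖(if m % 2 = 0 then ((ρ ^ n : ℝ) : 𝕜) else -((ρ ^ n : ℝ) : 𝕜))‖ = ρ ^ n := by
        have hpos : 0 ≤ ρ ^ n := by positivity
        split_ifs
        · rw [RCLike.norm_ofReal, abs_of_nonneg hpos]
        · rw [norm_neg, RCLike.norm_ofReal, abs_of_nonneg hpos]
      rw [this]
    have h3 : ‖cf c n (m / 2)‖ ≤ 1 := by
      unfold cf; split_ifs
      · exact hc _
      · simp
    have h4 : 0 < ρ ^ n := by positivity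
    have h5 := ih (m / 2)
    have h6 : ρ ^ n * ‖cf c n (m / 2)‖ ≤ ρ ^ n * 1 := mul_le_mul_of_nonneg_left h3 h4.le
    have h7 : ρ / (ρ - 1) * ρ ^ (n + 1) = (ρ / (ρ - 1) + ρ) * ρ ^ n := by
      rw [pow_succ, ← hK2]; ring
    have h8 : ρ ^ n ≤ ρ * ρ ^ n := by nlinarith
    rw [h7]
    linarith

/-- The constant of the upper democracy estimate. -/
noncomputable def demC (p ρ : ℝ) : ℝ := 2 * (ρ / (ρ - 1)) ^ p

lemma demC_pos {p ρ : ℝ} (hρ : 1 < ρ) : 0 < demC p ρ := by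
  unfold demC
  have : 0 < ρ / (ρ - 1) := div_pos (by linarith) (by linarith)
  positivity

lemma val_le_qv {p ρ : ℝ} (hp : 1 < p) (hρ : 1 < ρ) (hρp : ρ ^ p = 2) {c : HaarIndex → 𝕜}
    (hc : ∀ j, ‖c j‖ ≤ 1) {S : Finset HaarIndex} (hS : ∀ j, j ∉ S → c j = 0) (n m : ℕ) :
    ‖val ρ c n m‖ ^ p ≤ demC p ρ * qv (fun j => if j ∈ S then 1 else 0) n m ∧
      0 ≤ qv (fun j => if j ∈ S then 1 else 0) n m := by
  have h1 : 0 < ρ - 1 := by linarith
  have hK : 1 ≤ ρ / (ρ - 1) := by rw [le_div_iff₀ h1]; linarith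
  have hKp : 1 ≤ (ρ / (ρ - 1)) ^ p := Real.one_le_rpow hK (by linarith)
  induction n generalizing m with
  | zero =>
    rw [val_zero, qv]
    by_cases h : none ∈ S
    · simp only [h, if_true]
      refine ⟨?_, zero_le_one⟩
      have : ‖c none‖ ^ p ≤ 1 := Real.rpow_le_one (norm_nonneg _) (hc none) (by linarith)
      unfold demC
      linarith
    · simp only [h, if_false, mul_zero, hS none h, norm_zero]
      exact ⟨by rw [Real.zero_rpow (by linarith)], le_rfl⟩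
  | succ n ih =>
    obtain ⟨ih1, ih2⟩ := ih (m / 2)
    rw [qv]
    have hcf : (cf (fun j => if j ∈ S then (1 : ℝ) else 0) n (m / 2) = 1) ∨
        (cf (fun j => if j ∈ S then (1 : ℝ) else 0) n (m / 2) = 0 ∧ cf c n (m / 2) = 0) := by
      unfold cf
      by_cases h1 : m / 2 < 2 ^ n
      · rw [dif_pos h1, dif_pos h1]
        by_cases h2 : (some ⟨n, ⟨m / 2, h1⟩⟩ : HaarIndex) ∈ S
        · left; simp only [h2, if_true]
        · right; exact ⟨by simp only [h2, if_false], hS _ h2⟩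
      · rw [dif_neg h1, dif_neg h1]
        right; exact ⟨rfl, rfl⟩
    rcases hcf with h | ⟨h, h'⟩
    · rw [h]
      refine ⟨?_, by positivity⟩
      have h2 := val_crude hρ hc (n + 1) m
      have h3 : ‖val ρ c (n + 1) m‖ ^ p ≤ (ρ / (ρ - 1) * ρ ^ (n + 1)) ^ p :=
        Real.rpow_le_rpow (norm_nonneg _) h2 (by linarith)
      have h4 : (ρ / (ρ - 1) * ρ ^ (n + 1)) ^ p = (ρ / (ρ - 1)) ^ p * 2 ^ (n + 1) := by
        rw [Real.mul_rpow (by linarith) (by positivity), ← Real.rpow_natCast ρ,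
          ← Real.rpow_mul (by linarith), mul_comm ((n + 1 : ℕ) : ℝ) p, Real.rpow_mul (by linarith),
          hρp, Real.rpow_natCast]
      rw [h4] at h3
      refine h3.trans ?_
      unfold demC
      have h5 : 0 ≤ (ρ / (ρ - 1)) ^ p := by linarith
      have h6 : 0 ≤ 2 * (ρ / (ρ - 1)) ^ p *
        qv (fun j => if j ∈ S then (1 : ℝ) else 0) n (m / 2) := by positivity
      rw [pow_succ]
      nlinarith
    · rw [h, mul_zero, add_zero, val, h', mul_zero, add_zero]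
      exact ⟨ih1, ih2⟩

lemma pw_dem_upper {p ρ : ℝ} (hp : 1 < p) (hρ : 1 < ρ) (hρp : ρ ^ p = 2) {c : HaarIndex → 𝕜}
    (hc : ∀ j, ‖c j‖ ≤ 1) {S : Finset HaarIndex} (hS : ∀ j, j ∉ S → c j = 0) (n : ℕ) :
    pw p n (val ρ c n) ≤ demC p ρ * S.card := by
  unfold pw
  rw [div_le_iff₀ (by positivity)]
  have h1 : ∑ m ∈ range (2 ^ n), ‖val ρ c n m‖ ^ p ≤
      ∑ m ∈ range (2 ^ n), demC p ρ * qv (fun j => if j ∈ S then 1 else 0) n m :=
    Finset.sum_le_sum fun m _ => (val_le_qv hp hρ hρp hc hS n m).1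
  rw [← Finset.mul_sum, sum_qv] at h1
  have h2 : ∑ j ∈ lev n, (if j ∈ S then (1 : ℝ) else 0) ≤ S.card := by
    rw [Finset.sum_ite_mem, Finset.sum_const, nsmul_eq_mul, mul_one]
    exact_mod_cast Finset.card_le_card Finset.inter_subset_right
  have h3 := (demC_pos (p := p) hρ).le
  have h4 : 0 < (2 : ℝ) ^ n := by positivity
  have h5 : demC p ρ * (2 ^ n * ∑ j ∈ lev n, (if j ∈ S then (1 : ℝ) else 0)) ≤
      demC p ρ * (2 ^ n * S.card) :=
    mul_le_mul_of_nonneg_left (mul_le_mul_of_nonneg_left h2 h4.le) h3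
  linarith

/-- The pairing of two arrays. -/
lemma sum_pairing {ρ σ : ℝ} (h : ρ * σ = 2) (c d : HaarIndex → 𝕜) (n : ℕ) :
    ∑ m ∈ range (2 ^ n), val ρ c n m * val σ d n m = 2 ^ n * ∑ j ∈ lev n, c j * d j := by
  induction n with
  | zero => simp [sum_lev_zero, val_zero]
  | succ n ih =>
    rw [pow_succ, mul_comm, sum_range_double]
    simp only [val_even, val_odd]
    rw [sum_lev_succ]
    have hcd : ∀ k, cf (fun j => c j * d j) n k = cf c n k * cf d n k := by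
      intro k; unfold cf; split_ifs <;> simp
    simp only [hcd]
    have hpow : ((ρ ^ n : ℝ) : 𝕜) * ((σ ^ n : ℝ) : 𝕜) = 2 ^ n := by
      rw [← RCLike.ofReal_mul, ← mul_pow, h]; push_cast; rfl
    have : ∀ k ∈ range (2 ^ n),
        (val ρ c n k + ((ρ ^ n : ℝ) : 𝕜) * cf c n k) * (val σ d n k + ((σ ^ n : ℝ) : 𝕜) * cf d n k) +
        (val ρ c n k - ((ρ ^ n : ℝ) : 𝕜) * cf c n k) * (val σ d n k - ((σ ^ n : ℝ) : 𝕜) * cf d n k) =
        2 * (val ρ c n k * val σ d n k) + 2 * 2 ^ n * (cf c n k * cf d n k) := by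
      intro k _
      rw [← hpow]; ring
    rw [Finset.sum_congr rfl this, Finset.sum_add_distrib, ← Finset.mul_sum, ← Finset.mul_sum, ih]
    ring

lemma pw_dem_lower {p q ρ σ : ℝ} (hpq : p.HolderConjugate q) (hσ : 1 < σ)
    (hρσ : ρ * σ = 2) (hσq : σ ^ q = 2) {c : HaarIndex → 𝕜} {S : Finset HaarIndex}
    (hc : ∀ j ∈ S, 1 ≤ ‖c j‖) {n : ℕ} (hn : S ⊆ lev n) :
    (S.card : ℝ) ≤ demC q σ ^ (p / q) * pw p n (val ρ c n) := by
  have hp : 1 < p := hpq.lt
  have hq : 1 < q := hpq.symm.lt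
  set d : HaarIndex → 𝕜 := fun j => if j ∈ S then (starRingEnd 𝕜) (c j) / ((‖c j‖ : ℝ) : 𝕜) else 0
    with hd
  have hd1 : ∀ j, ‖d j‖ ≤ 1 := by
    intro j
    simp only [hd]
    split_ifs with hj
    · rw [norm_div, RCLike.norm_conj, RCLike.norm_ofReal, abs_norm]
      exact div_self_le_one _
    · simp
  have hd0 : ∀ j, j ∉ S → d j = 0 := fun j hj => by simp only [hd, hj, if_false]
  have hcd : ∀ j ∈ lev n, c j * d j = if j ∈ S then ((‖c j‖ : ℝ) : 𝕜) else 0 := by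
    intro j _
    by_cases hj : j ∈ S
    · have h0 : ((‖c j‖ : ℝ) : 𝕜) ≠ 0 := by
        rw [Ne, RCLike.ofReal_eq_zero]
        have := hc j hj
        intro h; rw [h] at this; linarith
      simp only [hd, hj, if_true]
      rw [mul_div_assoc', RCLike.mul_conj, sq, mul_div_assoc, div_self h0, mul_one]
    · simp only [hd, hj, if_false, mul_zero]
  have hpair := sum_pairing (𝕜 := 𝕜) hρσ c d n
  rw [Finset.sum_congr rfl hcd] at hpair
  have hsum : ∑ j ∈ lev n, (if j ∈ S then ((‖c j‖ : ℝ) : 𝕜) else 0) =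
      ((∑ j ∈ S, ‖c j‖ : ℝ) : 𝕜) := by
    rw [Finset.sum_ite_mem, Finset.inter_eq_right.mpr hn]
    push_cast; rfl
  rw [hsum] at hpair
  have hnorm : (2 : ℝ) ^ n * ∑ j ∈ S, ‖c j‖ =
      ‖∑ m ∈ range (2 ^ n), val ρ c n m * val σ d n m‖ := by
    rw [hpair, norm_mul, norm_pow, RCLike.norm_ofReal, RCLike.norm_two,
      abs_of_nonneg (Finset.sum_nonneg fun j _ => norm_nonneg _)]
  have hcard : (S.card : ℝ) ≤ ∑ j ∈ S, ‖c j‖ := by
    have := Finset.card_nsmul_le_sum S (fun j => ‖c j‖) 1 hc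
    simpa using this
  have h2n : (0 : ℝ) < 2 ^ n := by positivity
  have hle : (2 : ℝ) ^ n * S.card ≤
      (∑ m ∈ range (2 ^ n), ‖val ρ c n m‖ ^ p) ^ (1 / p) *
        (∑ m ∈ range (2 ^ n), ‖val σ d n m‖ ^ q) ^ (1 / q) := by
    calc (2 : ℝ) ^ n * S.card ≤ 2 ^ n * ∑ j ∈ S, ‖c j‖ := mul_le_mul_of_nonneg_left hcard h2n.le
      _ = ‖∑ m ∈ range (2 ^ n), val ρ c n m * val σ d n m‖ := hnorm
      _ ≤ ∑ m ∈ range (2 ^ n), ‖val ρ c n m‖ * ‖val σ d n m‖ := by
          refine (norm_sum_le _ _).trans (le_of_eq ?_)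
          exact Finset.sum_congr rfl fun m _ => norm_mul _ _
      _ ≤ _ := by
          have := Real.inner_le_Lp_mul_Lq (range (2 ^ n)) (fun m => ‖val ρ c n m‖)
            (fun m => ‖val σ d n m‖) hpq
          simpa only [abs_norm] using this
  -- rewrite in terms of `pw`
  have e1 : ∑ m ∈ range (2 ^ n), ‖val ρ c n m‖ ^ p = 2 ^ n * pw p n (val ρ c n) := by
    unfold pw; field_simp
  have e2 : ∑ m ∈ range (2 ^ n), ‖val σ d n m‖ ^ q = 2 ^ n * pw q n (val σ d n) := by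
    unfold pw; field_simp
  rw [e1, e2, Real.mul_rpow h2n.le (pw_nonneg _ _ _), Real.mul_rpow h2n.le (pw_nonneg _ _ _)] at hle
  have e3 : ((2 : ℝ) ^ n) ^ (1 / p) * ((2 : ℝ) ^ n) ^ (1 / q) = 2 ^ n := by
    rw [← Real.rpow_add h2n, one_div, one_div, hpq.inv_add_inv_eq_one, Real.rpow_one]
  have hle2 : (S.card : ℝ) ≤ pw p n (val ρ c n) ^ (1 / p) * pw q n (val σ d n) ^ (1 / q) := by
    have : (2 : ℝ) ^ n * S.card ≤
        2 ^ n * (pw p n (val ρ c n) ^ (1 / p) * pw q n (val σ d n) ^ (1 / q)) := by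
      calc (2 : ℝ) ^ n * S.card ≤ _ := hle
        _ = (((2 : ℝ) ^ n) ^ (1 / p) * ((2 : ℝ) ^ n) ^ (1 / q)) *
            (pw p n (val ρ c n) ^ (1 / p) * pw q n (val σ d n) ^ (1 / q)) := by ring
        _ = _ := by rw [e3]
    exact le_of_mul_le_mul_left this h2n
  have hup := pw_dem_upper (𝕜 := 𝕜) hq hσ hσq hd1 hd0 n
  have hup2 : pw q n (val σ d n) ^ (1 / q) ≤ (demC q σ * S.card) ^ (1 / q) :=
    Real.rpow_le_rpow (pw_nonneg _ _ _) hup (by positivity)
  have hpwp : 0 ≤ pw p n (val ρ c n) ^ (1 / p) := Real.rpow_nonneg (pw_nonneg _ _ _) _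
  have hle3 : (S.card : ℝ) ≤ pw p n (val ρ c n) ^ (1 / p) * (demC q σ * S.card) ^ (1 / q) :=
    hle2.trans (mul_le_mul_of_nonneg_left hup2 hpwp)
  have hD := (demC_pos (p := q) hσ).le
  rcases (Nat.cast_nonneg (α := ℝ) S.card).eq_or_lt with h0 | hpos
  · rw [← h0]
    exact mul_nonneg (Real.rpow_nonneg hD _) (pw_nonneg _ _ _)
  rw [Real.mul_rpow hD hpos.le] at hle3
  -- divide by `card ^ (1/q)` and raise to the power `p`
  have e4 : (S.card : ℝ) = (S.card : ℝ) ^ (1 / p) * (S.card : ℝ) ^ (1 / q) := by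
    rw [← Real.rpow_add hpos, one_div, one_div, hpq.inv_add_inv_eq_one, Real.rpow_one]
  have hposq : 0 < (S.card : ℝ) ^ (1 / q) := Real.rpow_pos_of_pos hpos _
  have hle4 : (S.card : ℝ) ^ (1 / p) ≤ pw p n (val ρ c n) ^ (1 / p) * demC q σ ^ (1 / q) := by
    have : (S.card : ℝ) ^ (1 / p) * (S.card : ℝ) ^ (1 / q) ≤
        (pw p n (val ρ c n) ^ (1 / p) * demC q σ ^ (1 / q)) * (S.card : ℝ) ^ (1 / q) := by
      rw [← e4]; linarith
    exact le_of_mul_le_mul_right this hposq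
  have hle5 := Real.rpow_le_rpow (Real.rpow_nonneg hpos.le _) hle4 (by linarith : 0 ≤ p)
  rw [Real.mul_rpow hpwp (Real.rpow_nonneg hD _), ← Real.rpow_mul hpos.le,
    ← Real.rpow_mul (pw_nonneg _ _ _), ← Real.rpow_mul hD, one_div_mul_cancel (by linarith),
    Real.rpow_one, Real.rpow_one] at hle5
  have e5 : 1 / q * p = p / q := by ring
  rw [e5] at hle5
  linarith

end

end Pool.Agent.Lib.MP_877d49_an
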