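import Mathlib

/-!
# The Haar system of `L_p[0,1]`, `s`-norms and the 1-greedy property: definitions
-/

namespace Pool.Agent.Lib.MP_877d49_an

open MeasureTheory Set
open scoped ENNReal

/-- Lebesgue measure on `[0,1]`. -/
noncomputable def unitMeasure : Measure ℝ := volume.restrict (Icc 0 1)

/-- Index set of the Haar system: `none` stands for `h_0`, and `some ⟨n, k⟩` with `0 ≤ k < 2 ^ n`
stands for the Haar function `h_{n,k+1}` of the dyadic interval `[k 2⁻ⁿ, (k+1) 2⁻ⁿ)`. -/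
abbrev HaarIndex : Type := Option (Σ n : ℕ, Fin (2 ^ n))

/-- The Haar functions, normalised in `L_p` (`p` a real exponent). -/
noncomputable def haarFun (p : ℝ) : HaarIndex → ℝ → ℝ
  | none => (Ico (0 : ℝ) 1).indicator 1
  | some ⟨n, k⟩ => fun x => (2 : ℝ) ^ ((n : ℝ) / p) *
      ((Ico ((k : ℝ) / 2 ^ n) (((k : ℝ) + 1 / 2) / 2 ^ n)).indicator 1 x -
        (Ico (((k : ℝ) + 1 / 2) / 2 ^ n) (((k : ℝ) + 1) / 2 ^ n)).indicator 1 x)

instance : IsFiniteMeasure unitMeasure := by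
  unfold unitMeasure; infer_instance

lemma measurable_haarFun (p : ℝ) (j : HaarIndex) : Measurable (haarFun p j) := by
  match j with
  | none => exact measurable_one.indicator measurableSet_Ico
  | some ⟨n, k⟩ =>
    exact ((measurable_one.indicator measurableSet_Ico).sub
      (measurable_one.indicator measurableSet_Ico)).const_mul _

lemma abs_indicator_one_le (s : Set ℝ) (x : ℝ) : |s.indicator (1 : ℝ → ℝ) x| ≤ 1 := by
  by_cases h : x ∈ s
  · rw [Set.indicator_of_mem h]; simp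
  · rw [Set.indicator_of_notMem h]; simp

lemma exists_haarFun_bound (p : ℝ) (j : HaarIndex) : ∃ C : ℝ, ∀ x, |haarFun p j x| ≤ C := by
  match j with
  | none => exact ⟨1, abs_indicator_one_le _⟩
  | some ⟨n, k⟩ =>
    refine ⟨|(2 : ℝ) ^ ((n : ℝ) / p)| * 2, fun x => ?_⟩
    unfold haarFun
    rw [abs_mul]
    apply mul_le_mul_of_nonneg_left _ (abs_nonneg _)
    refine (abs_sub _ _).trans ?_
    have h1 := abs_indicator_one_le (Ico ((k : ℝ) / 2 ^ n) (((k : ℝ) + 1 / 2) / 2 ^ n)) x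
    have h2 := abs_indicator_one_le (Ico (((k : ℝ) + 1 / 2) / 2 ^ n) (((k : ℝ) + 1) / 2 ^ n)) x
    linarith

section

variable {𝕜 : Type*} [RCLike 𝕜]

lemma memLp_haarFun (q : ℝ) (j : HaarIndex) (p : ℝ≥0∞) :
    MemLp (fun x => ((haarFun q j x : ℝ) : 𝕜)) p unitMeasure := by
  obtain ⟨C, hC⟩ := exists_haarFun_bound q j
  refine MemLp.of_bound ?_ C (Filter.Eventually.of_forall fun x => ?_)
  · exact (RCLike.continuous_ofReal.measurable.comp
      (measurable_haarFun q j)).aestronglyMeasurable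
  · rw [RCLike.norm_ofReal]; exact hC x

end

section

variable (𝕜 : Type*) [RCLike 𝕜] (p : ℝ≥0∞)

/-- The `L_p`-normalised Haar functions as elements of `L_p[0,1]` over the field `𝕜`. -/
noncomputable def haarLp (j : HaarIndex) : Lp 𝕜 p unitMeasure :=
  (memLp_haarFun (𝕜 := 𝕜) p.toReal j p).toLp _

end

section

variable {𝕜 : Type*} [RCLike 𝕜] {p : ℝ≥0∞}

/-- The `j`-th Haar coefficient `∫ f h_j / ∫ h_j ^ 2` of `f ∈ L_p[0,1]`. -/
noncomputable def haarCoeff (f : Lp 𝕜 p unitMeasure) (j : HaarIndex) : 𝕜 :=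
  (∫ x, f x * ((haarFun p.toReal j x : ℝ) : 𝕜) ∂unitMeasure) /
    ((∫ x, (haarFun p.toReal j x) ^ 2 ∂unitMeasure : ℝ) : 𝕜)

end

section

variable {𝕜 : Type*} [RCLike 𝕜] {X : Type*} [NormedAddCommGroup X] [NormedSpace 𝕜 X]

/-- `N` is an `s`-norm on the normed space `X` (over the field `𝕜` of real or complex numbers),
equivalent to the norm of `X`. -/
structure IsEquivalentSNorm (𝕜 : Type*) [RCLike 𝕜] {X : Type*} [NormedAddCommGroup X]
    [NormedSpace 𝕜 X] (s : ℝ) (N : X → ℝ) : Prop where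
  nonneg : ∀ f, 0 ≤ N f
  eq_zero_iff : ∀ f, N f = 0 ↔ f = 0
  smul : ∀ (t : 𝕜) (f : X), N (t • f) = ‖t‖ * N f
  add_rpow_le : ∀ f g, N (f + g) ^ s ≤ N f ^ s + N g ^ s
  equivalent : ∃ c C : ℝ, 0 < c ∧ c ≤ C ∧ ∀ f, c * ‖f‖ ≤ N f ∧ N f ≤ C * ‖f‖

/-- `A` is a greedy set for the coefficients `a`: the coefficients in `A` are at least as large
as the others. -/
def IsGreedySet {ι : Type*} (a : ι → 𝕜) (A : Finset ι) : Prop :=
  ∀ i ∈ A, ∀ j, j ∉ A → ‖a j‖ ≤ ‖a i‖

/-- The system `e` with coefficient functionals `a` is `1`-greedy with respect to `N`: every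
greedy sum of order `m` is a best `m`-term approximation. -/
def IsOneGreedy {ι : Type*} (e : ι → X) (a : X → ι → 𝕜) (N : X → ℝ) : Prop :=
  ∀ (f : X) (m : ℕ) (A : Finset ι), A.card = m → IsGreedySet (a f) A →
    ∀ (B : Finset ι) (b : ι → 𝕜), B.card ≤ m →
      N (f - ∑ j ∈ A, a f j • e j) ≤ N (f - ∑ j ∈ B, b j • e j)

end

section

variable {𝕜 : Type*} [RCLike 𝕜] {p : ℝ≥0∞} [Fact (1 ≤ p)]

/-- `N` is an `s`-norm on `L_p[0,1]`, equivalent to the usual norm. -/
def IsEquivalentSNormLp (s : ℝ) (N : Lp 𝕜 p unitMeasure → ℝ) : Prop :=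
  IsEquivalentSNorm 𝕜 s N

/-- The Haar system of `L_p[0,1]` is `1`-greedy with respect to `N`. -/
def HaarOneGreedy (N : Lp 𝕜 p unitMeasure → ℝ) : Prop :=
  IsOneGreedy (haarLp 𝕜 p) haarCoeff N

end

end Pool.Agent.Lib.MP_877d49_an
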