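import Pool.Agent.Lib.MP_877d49_an.Arrays2

/-!
# The Haar system in `L_p[0,1]`: link with arrays
-/

namespace Pool.Agent.Lib.MP_877d49_an

open MeasureTheory Set
open scoped ENNReal

/-- The `m`-th dyadic interval of level `n`. -/
def dy (n m : ℕ) : Set ℝ := Ico ((m : ℝ) / 2 ^ n) (((m : ℝ) + 1) / 2 ^ n)

/-- the position of `x` at level `n` -/
noncomputable def ix (n : ℕ) (x : ℝ) : ℕ := ⌊2 ^ n * x⌋₊

lemma mem_dy {n m : ℕ} {x : ℝ} (hx : 0 ≤ x) : x ∈ dy n m ↔ ix n x = m := by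
  unfold dy ix
  have h2 : (0 : ℝ) < 2 ^ n := by positivity
  rw [Nat.floor_eq_iff (by positivity), mem_Ico, div_le_iff₀ h2, lt_div_iff₀ h2,
    mul_comm x]

lemma nonneg_of_mem_dy {n m : ℕ} {x : ℝ} (hx : x ∈ dy n m) : 0 ≤ x := by
  have : (0 : ℝ) ≤ (m : ℝ) / 2 ^ n := by positivity
  exact this.trans hx.1

lemma ix_of_mem_dy {n m : ℕ} {x : ℝ} (hx : x ∈ dy n m) : ix n x = m :=
  (mem_dy (nonneg_of_mem_dy hx)).mp hx

lemma ix_lt {n : ℕ} {x : ℝ} (hx : x ∈ Ico (0 : ℝ) 1) : ix n x < 2 ^ n := by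
  unfold ix
  have h2 : (0 : ℝ) < 2 ^ n := by positivity
  rw [Nat.floor_lt (mul_nonneg h2.le hx.1)]
  push_cast
  nlinarith [hx.2]

lemma ix_succ_div (n : ℕ) (x : ℝ) : ix (n + 1) x / 2 = ix n x := by
  unfold ix
  rw [show (2 : ℝ) ^ n * x = 2 ^ (n + 1) * x / (2 : ℕ) by rw [pow_succ]; push_cast; ring,
    Nat.floor_div_natCast]

lemma dy_subset {n m : ℕ} (hm : m < 2 ^ n) : dy n m ⊆ Ico 0 1 := by
  intro x hx
  refine ⟨nonneg_of_mem_dy hx, hx.2.trans_le ?_⟩
  rw [div_le_one (by positivity)]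
  exact_mod_cast hm

lemma dy_even (n k : ℕ) :
    dy (n + 1) (2 * k) = Ico ((k : ℝ) / 2 ^ n) (((k : ℝ) + 1 / 2) / 2 ^ n) := by
  unfold dy
  congr 1
  · rw [pow_succ]; push_cast; field_simp
  · rw [pow_succ]; push_cast; field_simp

lemma dy_odd (n k : ℕ) :
    dy (n + 1) (2 * k + 1) = Ico (((k : ℝ) + 1 / 2) / 2 ^ n) (((k : ℝ) + 1) / 2 ^ n) := by
  unfold dy
  congr 1
  · rw [pow_succ]; push_cast; field_simp
  · rw [pow_succ]; push_cast; field_simp; ring

lemma measurableSet_dy (n m : ℕ) : MeasurableSet (dy n m) := measurableSet_Ico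

lemma dy_union (n k : ℕ) : dy n k = dy (n + 1) (2 * k) ∪ dy (n + 1) (2 * k + 1) := by
  rw [dy_even, dy_odd, Ico_union_Ico_eq_Ico]
  · rfl
  · apply div_le_div_of_nonneg_right _ (by positivity); linarith
  · apply div_le_div_of_nonneg_right _ (by positivity); linarith

lemma dy_disjoint {n m m' : ℕ} (h : m ≠ m') : Disjoint (dy n m) (dy n m') := by
  rw [Set.disjoint_left]
  intro x hx hx'
  exact h ((ix_of_mem_dy hx).symm.trans (ix_of_mem_dy hx'))

lemma volume_dy (n m : ℕ) : volume.real (dy n m) = 1 / 2 ^ n := by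
  unfold dy
  rw [Real.volume_real_Ico_of_le]
  · ring
  · apply div_le_div_of_nonneg_right _ (by positivity); linarith

lemma volume_dy_ne_top (n m : ℕ) : volume (dy n m) ≠ ∞ := by
  unfold dy; simp

lemma volume_dy_ne_zero (n m : ℕ) : volume (dy n m) ≠ 0 := by
  intro h
  have := volume_dy n m
  rw [measureReal_def, h, ENNReal.toReal_zero] at this
  have h2 : (0 : ℝ) < 1 / 2 ^ n := by positivity
  linarith

lemma Ico_eq_biUnion (n : ℕ) : Ico (0 : ℝ) 1 = ⋃ m ∈ Finset.range (2 ^ n), dy n m := by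
  ext x
  simp only [mem_iUnion, Finset.mem_range, exists_prop]
  constructor
  · intro hx
    exact ⟨ix n x, ix_lt hx, (mem_dy hx.1).mpr rfl⟩
  · rintro ⟨m, hm, hx⟩
    exact dy_subset hm hx

lemma unitMeasure_eq : unitMeasure = volume.restrict (Ico (0 : ℝ) 1) := by
  unfold unitMeasure
  exact (Measure.restrict_congr_set Ico_ae_eq_Icc).symm

lemma integral_unit_split {E : Type*} [NormedAddCommGroup E] [NormedSpace ℝ E] {f : ℝ → E}
    (hf : Integrable f unitMeasure) (n : ℕ) :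
    ∫ x, f x ∂unitMeasure = ∑ m ∈ Finset.range (2 ^ n), ∫ x in dy n m, f x := by
  rw [unitMeasure_eq] at hf ⊢
  rw [Ico_eq_biUnion n] at hf ⊢
  rw [integral_biUnion_finset]
  · intro m _; exact measurableSet_dy n m
  · intro m _ m' _ h; exact dy_disjoint h
  · intro m hm
    exact IntegrableOn.mono_set hf (subset_biUnion_of_mem (u := fun m => dy n m) hm)

lemma integral_ix {E : Type*} [NormedAddCommGroup E] [NormedSpace ℝ E] [CompleteSpace E]
    (φ : ℕ → E) (n m : ℕ) :
    ∫ x in dy n m, φ (ix n x) = (1 / 2 ^ n : ℝ) • φ m := by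
  rw [setIntegral_congr_fun (g := fun _ => φ m) (measurableSet_dy n m)
    (fun x hx => by simp only [ix_of_mem_dy hx])]
  rw [setIntegral_const, volume_dy]

lemma measurable_ix (n : ℕ) : Measurable (ix n) := by
  unfold ix
  exact Nat.measurable_floor.comp (measurable_const_mul _)

section coef

variable {𝕜 : Type*} [RCLike 𝕜] {p : ℝ≥0∞}

/-- `ρ = 2 ^ (1/p)`. -/
noncomputable def rho (p : ℝ) : ℝ := (2 : ℝ) ^ (1 / p)

lemma rho_pos (p : ℝ) : 0 < rho p := by unfold rho; positivity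

lemma rho_pow (p : ℝ) (n : ℕ) : (2 : ℝ) ^ ((n : ℝ) / p) = rho p ^ n := by
  unfold rho
  rw [← Real.rpow_natCast, ← Real.rpow_mul (by norm_num)]
  congr 1; ring

lemma haarFun_none (p : ℝ) : haarFun p none = (Ico (0 : ℝ) 1).indicator 1 := rfl

lemma haarFun_some (p : ℝ) (n : ℕ) (k : Fin (2 ^ n)) (x : ℝ) :
    haarFun p (some ⟨n, k⟩) x =
      rho p ^ n * ((dy (n + 1) (2 * k)).indicator 1 x - (dy (n + 1) (2 * k + 1)).indicator 1 x) := by
  rw [dy_even, dy_odd, ← rho_pow]
  rfl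

/-- Values of Haar functions in terms of positions. -/
lemma haarFun_some_ix (p : ℝ) (n : ℕ) (k : Fin (2 ^ n)) {x : ℝ} (hx : 0 ≤ x) :
    haarFun p (some ⟨n, k⟩) x =
      rho p ^ n * ((if ix (n + 1) x = 2 * k then 1 else 0) -
        (if ix (n + 1) x = 2 * k + 1 then 1 else 0)) := by
  rw [haarFun_some]
  congr 2
  · by_cases h : ix (n + 1) x = 2 * k
    · rw [if_pos h, indicator_of_mem ((mem_dy hx).mpr h)]; rfl
    · rw [if_neg h, indicator_of_notMem (fun h' => h ((mem_dy hx).mp h'))]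
  · by_cases h : ix (n + 1) x = 2 * k + 1
    · rw [if_pos h, indicator_of_mem ((mem_dy hx).mpr h)]; rfl
    · rw [if_neg h, indicator_of_notMem (fun h' => h ((mem_dy hx).mp h'))]

lemma sum_lev_haarFun (p : ℝ) (c : HaarIndex → 𝕜) (n : ℕ) {x : ℝ} (hx : x ∈ Ico (0 : ℝ) 1) :
    ∑ j ∈ lev n, c j * ((haarFun p j x : ℝ) : 𝕜) = val (rho p) c n (ix n x) := by
  induction n with
  | zero =>
    rw [sum_lev_zero, val_zero]
    rw [haarFun_none, indicator_of_mem hx]
    simp
  | succ n ih =>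
    rw [sum_lev_succ, ih, val, ix_succ_div]
    congr 1
    have hlt : ix n x < 2 ^ n := ix_lt hx
    rw [Finset.sum_eq_single (ix n x)]
    · have hdiv := ix_succ_div n x
      unfold cf
      rw [dif_pos hlt, dif_pos hlt]
      beta_reduce
      rw [haarFun_some_ix p n _ hx.1]
      simp only
      rcases Nat.mod_two_eq_zero_or_one (ix (n + 1) x) with h | h
      · have h1 : ix (n + 1) x = 2 * ix n x := by omega
        have h2 : ¬ ix (n + 1) x = 2 * ix n x + 1 := by omega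
        rw [if_pos h1, if_neg h2, if_pos h, sub_zero, mul_one, mul_comm]
      · have h1 : ¬ ix (n + 1) x = 2 * ix n x := by omega
        have h2 : ix (n + 1) x = 2 * ix n x + 1 := by omega
        rw [if_neg h1, if_pos h2, if_neg (by omega), zero_sub, mul_neg, mul_one, mul_comm]
        push_cast
        rfl
    · intro k hk hne
      unfold cf
      rw [dif_pos (Finset.mem_range.mp hk)]
      beta_reduce
      rw [haarFun_some_ix p n _ hx.1]
      have hdiv := ix_succ_div n x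
      have h1 : ¬ ix (n + 1) x = 2 * k := by omega
      have h2 : ¬ ix (n + 1) x = 2 * k + 1 := by omega
      simp only
      rw [if_neg h1, if_neg h2]
      simp
    · intro h
      exact absurd (Finset.mem_range.mpr hlt) h

end coef

end Pool.Agent.Lib.MP_877d49_an
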