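import Pool.Agent.Lib.MP_877d49_an.Haar

/-!
# Haar coefficients, averages and norms
-/

namespace Pool.Agent.Lib.MP_877d49_an

open MeasureTheory Set
open scoped ENNReal

section avg

variable {𝕜 : Type*} [RCLike 𝕜]

/-- Average over a dyadic interval. -/
noncomputable def avg (g : ℝ → 𝕜) (n m : ℕ) : 𝕜 := (2 : 𝕜) ^ n * ∫ x in dy n m, g x

lemma integrableOn_dy {g : ℝ → 𝕜} (hg : Integrable g unitMeasure) {n m : ℕ} (hm : m < 2 ^ n) :
    IntegrableOn g (dy n m) := by
  rw [unitMeasure_eq] at hg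
  exact IntegrableOn.mono_set hg (dy_subset hm)

lemma avg_succ {g : ℝ → 𝕜} (hg : Integrable g unitMeasure) {n k : ℕ} (hk : k < 2 ^ n) :
    avg g (n + 1) (2 * k) + avg g (n + 1) (2 * k + 1) = 2 * avg g n k := by
  unfold avg
  have h1 : 2 * k < 2 ^ (n + 1) := by rw [pow_succ]; omega
  have h2 : 2 * k + 1 < 2 ^ (n + 1) := by rw [pow_succ]; omega
  have h3 : ∫ x in dy n k, g x = (∫ x in dy (n + 1) (2 * k), g x) +
      ∫ x in dy (n + 1) (2 * k + 1), g x := by
    rw [dy_union, setIntegral_union (dy_disjoint (by omega)) (measurableSet_dy _ _)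
      (integrableOn_dy hg h1) (integrableOn_dy hg h2)]
  rw [h3]
  ring

lemma avg_ix {g : ℝ → 𝕜} {n m : ℕ} {φ : ℕ → 𝕜} (hm : m < 2 ^ n)
    (h : ∀ᵐ x ∂unitMeasure, g x = φ (ix n x)) : avg g n m = φ m := by
  unfold avg
  rw [unitMeasure_eq] at h
  have h1 : ∀ᵐ x ∂(volume.restrict (dy n m)), g x = φ (ix n x) :=
    ae_mono (Measure.restrict_mono (dy_subset hm) le_rfl) h
  rw [integral_congr_ae h1, integral_ix, RCLike.real_smul_eq_coe_mul]
  push_cast
  have h2 : (2 : 𝕜) ^ n ≠ 0 := pow_ne_zero _ two_ne_zero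
  rw [← mul_assoc, mul_one_div_cancel h2, one_mul]

end avg

section coeff

variable {𝕜 : Type*} [RCLike 𝕜] {p : ℝ≥0∞}

lemma dy_zero_zero : dy 0 0 = Ico (0 : ℝ) 1 := by
  unfold dy; simp

/-- coefficient of a function -/
noncomputable def hcoef (q : ℝ) (f : ℝ → 𝕜) (j : HaarIndex) : 𝕜 :=
  (∫ x, f x * ((haarFun q j x : ℝ) : 𝕜) ∂unitMeasure) /
    ((∫ x, (haarFun q j x) ^ 2 ∂unitMeasure : ℝ) : 𝕜)

lemma haarCoeff_eq (f : Lp 𝕜 p unitMeasure) : haarCoeff f = hcoef p.toReal f := rfl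

lemma hcoef_none (q : ℝ) (f : ℝ → 𝕜) : hcoef q f none = avg f 0 0 := by
  unfold hcoef avg
  rw [unitMeasure_eq, dy_zero_zero, pow_zero, one_mul]
  have h1 : ∫ x in Ico (0 : ℝ) 1, f x * ((haarFun q none x : ℝ) : 𝕜) =
      ∫ x in Ico (0 : ℝ) 1, f x := by
    apply setIntegral_congr_fun measurableSet_Ico
    intro x hx
    simp only [haarFun_none, indicator_of_mem hx, Pi.one_apply, map_one, mul_one]
  have h2 : ∫ x in Ico (0 : ℝ) 1, (haarFun q none x) ^ 2 = 1 := by
    rw [setIntegral_congr_fun (g := fun _ => (1 : ℝ)) measurableSet_Ico]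
    · simp
    · intro x hx
      simp only [haarFun_none, indicator_of_mem hx, Pi.one_apply, one_pow]
  rw [h1, h2]
  simp

lemma hcoef_some (q : ℝ) (f : ℝ → 𝕜) (hf : Integrable f unitMeasure) (n : ℕ)
    (k : Fin (2 ^ n)) :
    hcoef q f (some ⟨n, k⟩) = (((rho q ^ n : ℝ) : 𝕜))⁻¹ *
      ((avg f (n + 1) (2 * k) - avg f (n + 1) (2 * k + 1)) / 2) := by
  have hk := k.2
  have hk1 : 2 * (k : ℕ) < 2 ^ (n + 1) := by rw [pow_succ]; omega
  have hk2 : 2 * (k : ℕ) + 1 < 2 ^ (n + 1) := by rw [pow_succ]; omega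
  have hρ : 0 < rho q ^ n := pow_pos (rho_pos _) n
  set s := dy (n + 1) (2 * k) with hs
  set t := dy (n + 1) (2 * k + 1) with ht
  have hsm : MeasurableSet s := measurableSet_dy _ _
  have htm : MeasurableSet t := measurableSet_dy _ _
  have hsI : Ico (0 : ℝ) 1 ∩ s = s := inter_eq_right.mpr (dy_subset hk1)
  have htI : Ico (0 : ℝ) 1 ∩ t = t := inter_eq_right.mpr (dy_subset hk2)
  have hst : Disjoint s t := dy_disjoint (by omega)
  rw [unitMeasure_eq] at hf
  have hfs : IntegrableOn f s := IntegrableOn.mono_set hf (dy_subset hk1)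
  have hft : IntegrableOn f t := IntegrableOn.mono_set hf (dy_subset hk2)
  -- numerator
  have h1 : ∫ x in Ico (0 : ℝ) 1, f x * ((haarFun q (some ⟨n, k⟩) x : ℝ) : 𝕜) =
      ((rho q ^ n : ℝ) : 𝕜) * ((∫ x in s, f x) - ∫ x in t, f x) := by
    have e : ∀ x, f x * ((haarFun q (some ⟨n, k⟩) x : ℝ) : 𝕜) =
        ((rho q ^ n : ℝ) : 𝕜) * (s.indicator f x - t.indicator f x) := by
      intro x
      rw [haarFun_some]
      by_cases hxs : x ∈ s
      · have hxt : x ∉ t := Set.disjoint_left.mp hst hxs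
        rw [indicator_of_mem hxs, indicator_of_notMem hxt, indicator_of_mem hxs,
          indicator_of_notMem hxt]
        simp [mul_comm]
      · by_cases hxt : x ∈ t
        · rw [indicator_of_notMem hxs, indicator_of_mem hxt, indicator_of_notMem hxs,
            indicator_of_mem hxt]
          simp [mul_comm]
        · rw [indicator_of_notMem hxs, indicator_of_notMem hxt, indicator_of_notMem hxs,
            indicator_of_notMem hxt]
          simp
    simp only [e]
    rw [integral_const_mul, integral_sub, setIntegral_indicator hsm, setIntegral_indicator htm,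
      hsI, htI]
    · exact (hf.indicator hsm)
    · exact (hf.indicator htm)
  -- denominator
  have h2 : ∫ x in Ico (0 : ℝ) 1, (haarFun q (some ⟨n, k⟩) x) ^ 2 =
      (rho q ^ n) ^ 2 * (1 / 2 ^ n) := by
    have e : ∀ x, (haarFun q (some ⟨n, k⟩) x) ^ 2 =
        (rho q ^ n) ^ 2 * (s.indicator (fun _ => (1 : ℝ)) x +
          t.indicator (fun _ => (1 : ℝ)) x) := by
      intro x
      rw [haarFun_some]
      by_cases hxs : x ∈ s
      · have hxt : x ∉ t := Set.disjoint_left.mp hst hxs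
        rw [indicator_of_mem hxs, indicator_of_notMem hxt, indicator_of_mem hxs,
          indicator_of_notMem hxt]
        simp
      · by_cases hxt : x ∈ t
        · rw [indicator_of_notMem hxs, indicator_of_mem hxt, indicator_of_notMem hxs,
            indicator_of_mem hxt]
          simp
        · rw [indicator_of_notMem hxs, indicator_of_notMem hxt, indicator_of_notMem hxs,
            indicator_of_notMem hxt]
          simp
    have hone : IntegrableOn (fun _ : ℝ => (1 : ℝ)) (Ico (0 : ℝ) 1) := by simp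
    simp only [e]
    rw [integral_const_mul, integral_add, setIntegral_indicator hsm, setIntegral_indicator htm,
      hsI, htI, setIntegral_const, setIntegral_const, volume_dy, volume_dy]
    · rw [pow_succ]; simp only [smul_eq_mul, mul_one]; ring
    · exact (hone.indicator hsm)
    · exact (hone.indicator htm)
  unfold hcoef avg
  rw [unitMeasure_eq, h1, h2, ← hs, ← ht]
  have hρ' : ((rho q : ℝ) : 𝕜) ≠ 0 := by
    rw [Ne, RCLike.ofReal_eq_zero]; exact (rho_pos _).ne'
  push_cast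
  field_simp
  ring

lemma val_hcoef (q : ℝ) (f : ℝ → 𝕜) (hf : Integrable f unitMeasure) (n m : ℕ)
    (hm : m < 2 ^ n) : val (rho q) (hcoef q f) n m = avg f n m := by
  induction n generalizing m with
  | zero =>
    have : m = 0 := by simpa using hm
    subst this
    rw [val_zero, hcoef_none]
  | succ n ih =>
    have hm2 : m / 2 < 2 ^ n := by rw [pow_succ] at hm; omega
    rw [val, ih (m / 2) hm2]
    have h1 := avg_succ hf hm2
    have hρ' : ((rho q ^ n : ℝ) : 𝕜) ≠ 0 := by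
      rw [Ne, RCLike.ofReal_eq_zero]; exact (pow_pos (rho_pos _) n).ne'
    have h2 : ((rho q ^ n : ℝ) : 𝕜) * cf (hcoef q f) n (m / 2) =
        (avg f (n + 1) (2 * (m / 2)) - avg f (n + 1) (2 * (m / 2) + 1)) / 2 := by
      unfold cf
      rw [dif_pos hm2, hcoef_some q f hf, ← mul_assoc, mul_inv_cancel₀ hρ', one_mul]
    rcases Nat.mod_two_eq_zero_or_one m with h | h
    · rw [if_pos h, h2]
      have e : 2 * (m / 2) = m := by omega
      rw [e] at h1 ⊢
      linear_combination (-1 / 2) * h1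
    · rw [if_neg (by omega), neg_mul, h2]
      have e : 2 * (m / 2) + 1 = m := by omega
      rw [e] at h1 ⊢
      linear_combination (-1 / 2) * h1

/-- Jensen: averaging does not increase the `L_p` norm. -/
lemma pw_avg_le {q : ℝ} (hq : 1 ≤ q) {g : ℝ → 𝕜} (hg : Integrable g unitMeasure)
    (hgq : Integrable (fun x => ‖g x‖ ^ q) unitMeasure) (n : ℕ) :
    pw q n (avg g n) ≤ ∫ x, ‖g x‖ ^ q ∂unitMeasure := by
  rw [integral_unit_split hgq n]
  unfold pw
  rw [Finset.sum_div]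
  apply Finset.sum_le_sum
  intro m hm
  rw [Finset.mem_range] at hm
  have hI := integrableOn_dy hg hm
  have hIq : IntegrableOn (fun x => ‖g x‖ ^ q) (dy n m) := by
    rw [unitMeasure_eq] at hgq
    exact IntegrableOn.mono_set hgq (dy_subset hm)
  have h2n : (0 : ℝ) < 2 ^ n := by positivity
  have hconv := (convexOn_rpow hq).map_set_average_le (μ := volume) (t := dy n m)
    (f := fun x => ‖g x‖)
    (Continuous.continuousOn (Real.continuous_rpow_const (by linarith))) isClosed_Ici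
    (volume_dy_ne_zero n m) (volume_dy_ne_top n m)
    (Filter.Eventually.of_forall fun x => norm_nonneg _) hI.norm hIq
  rw [setAverage_eq, setAverage_eq, volume_dy] at hconv
  simp only [one_div, inv_inv, smul_eq_mul] at hconv
  have h1 : ‖avg g n m‖ ≤ 2 ^ n * ∫ x in dy n m, ‖g x‖ := by
    unfold avg
    rw [norm_mul, norm_pow, RCLike.norm_two]
    exact mul_le_mul_of_nonneg_left (norm_integral_le_integral_norm _) h2n.le
  rw [div_le_iff₀ h2n]
  calc ‖avg g n m‖ ^ q ≤ (2 ^ n * ∫ x in dy n m, ‖g x‖) ^ q :=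
        Real.rpow_le_rpow (norm_nonneg _) h1 (by linarith)
    _ ≤ 2 ^ n * ∫ x in dy n m, ‖g x‖ ^ q := hconv
    _ = (∫ x in dy n m, ‖g x‖ ^ q) * 2 ^ n := mul_comm _ _

end coeff

section norms

variable {𝕜 : Type*} [RCLike 𝕜] {p : ℝ≥0∞}

lemma coeFn_sum (c : HaarIndex → 𝕜) (S : Finset HaarIndex) :
    ((∑ j ∈ S, c j • haarLp 𝕜 p j : Lp 𝕜 p unitMeasure) : ℝ → 𝕜) =ᵐ[unitMeasure]
      fun x => ∑ j ∈ S, c j * ((haarFun p.toReal j x : ℝ) : 𝕜) := by
  classical
  induction S using Finset.induction_on with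
  | empty =>
    simp only [Finset.sum_empty]
    exact Lp.coeFn_zero 𝕜 p unitMeasure
  | insert i S hi ih =>
    rw [Finset.sum_insert hi]
    have h1 := Lp.coeFn_add (c i • haarLp 𝕜 p i) (∑ j ∈ S, c j • haarLp 𝕜 p j)
    have h2 := Lp.coeFn_smul (c i) (haarLp 𝕜 p i)
    have h3 := (memLp_haarFun (𝕜 := 𝕜) p.toReal i p).coeFn_toLp
    filter_upwards [h1, h2, h3, ih] with x e1 e2 e3 e4
    rw [e1, Pi.add_apply, e2, Pi.smul_apply, e4, Finset.sum_insert hi, smul_eq_mul]
    congr 2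

lemma coeFn_lev (c : HaarIndex → 𝕜) (n : ℕ) :
    ((∑ j ∈ lev n, c j • haarLp 𝕜 p j : Lp 𝕜 p unitMeasure) : ℝ → 𝕜) =ᵐ[unitMeasure]
      fun x => val (rho p.toReal) c n (ix n x) := by
  have h1 := coeFn_sum (p := p) c (lev n)
  have h2 : ∀ᵐ x ∂unitMeasure, x ∈ Ico (0 : ℝ) 1 := by
    rw [unitMeasure_eq]; exact ae_restrict_mem measurableSet_Ico
  filter_upwards [h1, h2] with x e1 e2
  rw [e1, sum_lev_haarFun _ _ _ e2]

variable [hp : Fact (1 ≤ p)]

lemma norm_rpow (hp' : p ≠ ∞) (f : Lp 𝕜 p unitMeasure) :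
    ‖f‖ ^ p.toReal = ∫ x, ‖f x‖ ^ p.toReal ∂unitMeasure := by
  have hp0 : p ≠ 0 := (zero_lt_one.trans_le hp.out).ne'
  have hpr : 0 < p.toReal := ENNReal.toReal_pos hp0 hp'
  have h0 : 0 ≤ ∫ x, ‖f x‖ ^ p.toReal ∂unitMeasure :=
    integral_nonneg fun x => Real.rpow_nonneg (norm_nonneg _) _
  rw [Lp.norm_def, (Lp.memLp f).eLpNorm_eq_integral_rpow_norm hp0 hp', ENNReal.toReal_ofReal
    (Real.rpow_nonneg h0 _), ← Real.rpow_mul h0, inv_mul_cancel₀ hpr.ne', Real.rpow_one]

lemma norm_lev_rpow (hp' : p ≠ ∞) (c : HaarIndex → 𝕜) (n : ℕ) :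
    ‖(∑ j ∈ lev n, c j • haarLp 𝕜 p j : Lp 𝕜 p unitMeasure)‖ ^ p.toReal =
      pw p.toReal n (val (rho p.toReal) c n) := by
  rw [norm_rpow hp']
  have h1 := coeFn_lev (p := p) c n
  have h2 : ∀ᵐ x ∂unitMeasure, ‖(∑ j ∈ lev n, c j • haarLp 𝕜 p j : Lp 𝕜 p unitMeasure) x‖ ^
      p.toReal = (fun m => ‖val (rho p.toReal) c n m‖ ^ p.toReal) (ix n x) := by
    filter_upwards [h1] with x e1
    rw [e1]
  rw [integral_congr_ae h2, integral_unit_split]
  · unfold pw
    rw [Finset.sum_div]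
    apply Finset.sum_congr rfl
    intro m _
    rw [integral_ix (fun m => ‖val (rho p.toReal) c n m‖ ^ p.toReal), smul_eq_mul]
    ring
  · -- integrability of a bounded measurable function
    rw [← integrable_congr h2]
    have hp0 : p ≠ 0 := (zero_lt_one.trans_le hp.out).ne'
    exact (Lp.memLp (∑ j ∈ lev n, c j • haarLp 𝕜 p j : Lp 𝕜 p unitMeasure)).integrable_norm_rpow
      hp0 hp'

end norms

end Pool.Agent.Lib.MP_877d49_an
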