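import Pool.Agent.Lib.MP_877d49_an.Haar2
import Pool.Agent.Lib.MP_877d49_an.Abstract

/-!
# The Haar system of `L_p[0,1]`, `1 < p < ∞`, is a greedy system in the abstract sense
-/

namespace Pool.Agent.Lib.MP_877d49_an

open MeasureTheory Set Filter
open scoped ENNReal Topology

section density

variable {𝕜 : Type*} [RCLike 𝕜]

/-- Lebesgue differentiation along dyadic intervals. -/
lemma tendsto_avg {g : ℝ → 𝕜} (hg : Integrable g unitMeasure) :
    ∀ᵐ x ∂unitMeasure, Tendsto (fun n => avg g n (ix n x)) atTop (𝓝 (g x)) := by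
  -- extend by zero
  set G : ℝ → 𝕜 := (Ico (0 : ℝ) 1).indicator g with hG
  have hGint : Integrable G volume := by
    rw [hG, integrable_indicator_iff measurableSet_Ico]
    rw [unitMeasure_eq] at hg
    exact hg
  have h1 := IsUnifLocDoublingMeasure.ae_tendsto_average (μ := volume)
    hGint.locallyIntegrable 1
  rw [unitMeasure_eq, ae_restrict_iff' measurableSet_Ico]
  filter_upwards [h1] with x hx hxI
  have h2 := hx (l := atTop) (fun n : ℕ => ((ix n x : ℝ) + 1 / 2) / 2 ^ n)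
    (fun n : ℕ => (1 / 2) / 2 ^ n) ?_ ?_
  · have hGx : G x = g x := by rw [hG, indicator_of_mem hxI]
    rw [hGx] at h2
    refine h2.congr ?_
    intro n
    have hcb : Metric.closedBall (((ix n x : ℝ) + 1 / 2) / 2 ^ n) ((1 / 2) / 2 ^ n) =
        Icc ((ix n x : ℝ) / 2 ^ n) (((ix n x : ℝ) + 1) / 2 ^ n) := by
      rw [Real.closedBall_eq_Icc]
      congr 1 <;> ring
    rw [hcb, setAverage_eq, integral_Icc_eq_integral_Ico]
    have hlt := ix_lt (n := n) hxI
    have h3 : ∫ y in Ico ((ix n x : ℝ) / 2 ^ n) (((ix n x : ℝ) + 1) / 2 ^ n), G y =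
        ∫ y in dy n (ix n x), g y := by
      apply setIntegral_congr_fun (measurableSet_dy _ _)
      intro y hy
      simp only [hG]
      rw [indicator_of_mem (dy_subset hlt hy)]
    rw [h3, Real.volume_real_Icc_of_le
      (by apply div_le_div_of_nonneg_right _ (by positivity); linarith)]
    unfold avg
    have h4 : (((ix n x : ℝ) + 1) / 2 ^ n - (ix n x : ℝ) / 2 ^ n)⁻¹ = 2 ^ n := by
      rw [← sub_div, add_sub_cancel_left, one_div, inv_inv]
    rw [h4, RCLike.real_smul_eq_coe_mul]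
    push_cast
    rfl
  · rw [tendsto_nhdsWithin_iff]
    constructor
    · have : Tendsto (fun n : ℕ => (1 / 2 : ℝ) * (1 / 2) ^ n) atTop (𝓝 ((1 / 2) * 0)) :=
        (tendsto_pow_atTop_nhds_zero_of_lt_one (by norm_num) (by norm_num)).const_mul _
      rw [mul_zero] at this
      refine this.congr ?_
      intro n
      rw [one_div_pow]; ring
    · exact Eventually.of_forall fun n => by
        simp only [mem_Ioi]; positivity
  · refine Eventually.of_forall fun n => ?_
    rw [one_mul, Real.closedBall_eq_Icc]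
    have h3 : x ∈ dy n (ix n x) := (mem_dy hxI.1).mpr rfl
    unfold dy at h3
    constructor
    · have := h3.1
      calc _ = (ix n x : ℝ) / 2 ^ n := by ring
        _ ≤ x := this
    · have := h3.2.le
      calc x ≤ ((ix n x : ℝ) + 1) / 2 ^ n := this
        _ = _ := by ring

end density

section system

variable {𝕜 : Type*} [RCLike 𝕜] {p : ℝ≥0∞} [hp : Fact (1 ≤ p)]

lemma integrable_lp (f : Lp 𝕜 p unitMeasure) : Integrable f unitMeasure :=
  (Lp.memLp f).integrable hp.out

omit hp in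
lemma integrable_mul_haar {f : ℝ → 𝕜} (hf : Integrable f unitMeasure) (q : ℝ) (j : HaarIndex) :
    Integrable (fun x => f x * ((haarFun q j x : ℝ) : 𝕜)) unitMeasure := by
  obtain ⟨C, hC⟩ := exists_haarFun_bound q j
  refine hf.mul_bdd (c := C) ?_ (Eventually.of_forall fun x => ?_)
  · exact (memLp_haarFun (𝕜 := 𝕜) q j 1).aestronglyMeasurable
  · rw [RCLike.norm_ofReal]; exact hC x

/-- The coefficient map. -/
noncomputable def coefLin : Lp 𝕜 p unitMeasure →ₗ[𝕜] (HaarIndex → 𝕜) where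
  toFun f := haarCoeff f
  map_add' f g := by
    funext j
    rw [Pi.add_apply]
    unfold haarCoeff
    rw [← add_div, ← integral_add (integrable_mul_haar (integrable_lp f) _ _)
      (integrable_mul_haar (integrable_lp g) _ _)]
    congr 1
    apply integral_congr_ae
    filter_upwards [Lp.coeFn_add f g] with x hx
    rw [hx, Pi.add_apply, add_mul]
  map_smul' r f := by
    funext j
    rw [Pi.smul_apply, RingHom.id_apply, smul_eq_mul]
    unfold haarCoeff
    rw [← mul_div_assoc, ← integral_const_mul]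
    congr 1
    apply integral_congr_ae
    filter_upwards [Lp.coeFn_smul r f] with x hx
    rw [hx, Pi.smul_apply, smul_eq_mul, mul_assoc]

lemma coefLin_apply (f : Lp 𝕜 p unitMeasure) : coefLin f = haarCoeff f := rfl

lemma val_haarCoeff (f : Lp 𝕜 p unitMeasure) {n m : ℕ} (hm : m < 2 ^ n) :
    val (rho p.toReal) (haarCoeff f) n m = avg f n m := by
  rw [haarCoeff_eq]; exact val_hcoef p.toReal f (integrable_lp f) n m hm

/-- Coefficients of finite Haar sums. -/
lemma haarCoeff_lev (c : HaarIndex → 𝕜) (n : ℕ) :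
    ∀ j ∈ lev n, haarCoeff (∑ j ∈ lev n, c j • haarLp 𝕜 p j : Lp 𝕜 p unitMeasure) j = c j := by
  apply val_inj (rho_pos p.toReal)
  intro m hm
  rw [val_haarCoeff _ hm]
  exact avg_ix hm (coeFn_lev c n)

lemma haarCoeff_haarLp (i j : HaarIndex) :
    haarCoeff (haarLp 𝕜 p i) j = if i = j then 1 else 0 := by
  obtain ⟨n, hn⟩ := exists_lev {i, j}
  have hi : i ∈ lev n := hn (by simp)
  have hj : j ∈ lev n := hn (by simp)
  have h1 := haarCoeff_lev (p := p) (fun j => if i = j then (1 : 𝕜) else 0) n j hj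
  have h2 : (∑ j ∈ lev n, (if i = j then (1 : 𝕜) else 0) • haarLp 𝕜 p j) = haarLp 𝕜 p i := by
    rw [Finset.sum_eq_single i]
    · simp
    · intro k _ hk
      rw [if_neg (Ne.symm hk), zero_smul]
    · intro h; exact absurd hi h
  rw [h2] at h1
  exact h1

omit hp in
lemma linearCombination_lev (c : HaarIndex →₀ 𝕜) {n : ℕ} (hn : c.support ⊆ lev n) :
    Finsupp.linearCombination 𝕜 (haarLp 𝕜 p) c =
      ∑ j ∈ lev n, c j • haarLp 𝕜 p j := by
  rw [Finsupp.linearCombination_apply, Finsupp.sum_of_support_subset _ hn]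
  intro j _
  exact zero_smul _ _

lemma pw_coeff_le (hp' : p ≠ ∞) (f : Lp 𝕜 p unitMeasure) (n : ℕ) :
    pw p.toReal n (val (rho p.toReal) (haarCoeff f) n) ≤ ‖f‖ ^ p.toReal := by
  have hp0 : p ≠ 0 := (zero_lt_one.trans_le hp.out).ne'
  have h1 : pw p.toReal n (val (rho p.toReal) (haarCoeff f) n) = pw p.toReal n (avg f n) := by
    unfold pw
    congr 1
    apply Finset.sum_congr rfl
    intro m hm
    rw [val_haarCoeff _ (Finset.mem_range.mp hm)]
  rw [h1, norm_rpow hp']
  apply pw_avg_le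
  · exact (ENNReal.dichotomy p).resolve_left hp'
  · exact integrable_lp f
  · exact (Lp.memLp f).integrable_norm_rpow hp0 hp'

/-- Totality of the Haar system. -/
lemma norm_le_of_sums (f : Lp 𝕜 p unitMeasure) (M : ℝ)
    (h : ∀ F : Finset HaarIndex, ‖∑ j ∈ F, haarCoeff f j • haarLp 𝕜 p j‖ ≤ M) : ‖f‖ ≤ M := by
  have hM : 0 ≤ M := (norm_nonneg _).trans (h ∅)
  have h1 : ∀ᵐ x ∂unitMeasure, Tendsto
      (fun n => (∑ j ∈ lev n, haarCoeff f j • haarLp 𝕜 p j : Lp 𝕜 p unitMeasure) x)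
      atTop (𝓝 (f x)) := by
    have h2 : ∀ᵐ x ∂unitMeasure, ∀ n : ℕ,
        (∑ j ∈ lev n, haarCoeff f j • haarLp 𝕜 p j : Lp 𝕜 p unitMeasure) x =
          val (rho p.toReal) (haarCoeff f) n (ix n x) := by
      rw [ae_all_iff]
      intro n
      exact coeFn_lev (haarCoeff f) n
    have h3 : ∀ᵐ x ∂unitMeasure, x ∈ Ico (0 : ℝ) 1 := by
      rw [unitMeasure_eq]; exact ae_restrict_mem measurableSet_Ico
    filter_upwards [h2, h3, tendsto_avg (integrable_lp f)] with x e2 e3 e4
    refine e4.congr ?_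
    intro n
    rw [e2 n, val_haarCoeff _ (ix_lt e3)]
  have h2 := Lp.eLpNorm_lim_le_liminf_eLpNorm (p := p) (μ := unitMeasure)
    (fun n => (Lp.aestronglyMeasurable
      (∑ j ∈ lev n, haarCoeff f j • haarLp 𝕜 p j : Lp 𝕜 p unitMeasure))) f h1
  have h3 : atTop.liminf (fun n => eLpNorm
      (∑ j ∈ lev n, haarCoeff f j • haarLp 𝕜 p j : Lp 𝕜 p unitMeasure) p unitMeasure) ≤
      ENNReal.ofReal M := by
    refine liminf_le_of_le (by isBoundedDefault) ?_
    intro b hb
    obtain ⟨n, hn⟩ := hb.exists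
    refine hn.trans ?_
    rw [← Lp.enorm_def, ← ofReal_norm]
    exact ENNReal.ofReal_le_ofReal (h (lev n))
  have h4 := h2.trans h3
  rw [Lp.norm_def]
  exact ENNReal.toReal_le_of_le_ofReal hM h4

lemma rho_gt_one {q : ℝ} (hq : 0 < q) : 1 < rho q := by
  unfold rho
  exact Real.one_lt_rpow (by norm_num) (by positivity)

lemma rho_rpow {q : ℝ} (hq : 0 < q) : rho q ^ q = 2 := by
  unfold rho
  rw [← Real.rpow_mul (by norm_num), one_div, inv_mul_cancel₀ hq.ne', Real.rpow_one]

lemma rho_mul {q q' : ℝ} (h : q.HolderConjugate q') : rho q * rho q' = 2 := by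
  unfold rho
  rw [← Real.rpow_add (by norm_num), one_div, one_div, h.inv_add_inv_eq_one, Real.rpow_one]

lemma le_of_rpow_le {q a b C : ℝ} (hq : 0 < q) (ha : 0 ≤ a) (hb : 0 ≤ b) (hC : 0 ≤ C)
    (h : a ^ q ≤ C * b ^ q) : a ≤ C ^ (1 / q) * b := by
  have h1 := Real.rpow_le_rpow (Real.rpow_nonneg ha _) h (by positivity : 0 ≤ 1 / q)
  rw [← Real.rpow_mul ha, Real.mul_rpow hC (Real.rpow_nonneg hb _), ← Real.rpow_mul hb,
    mul_one_div_cancel hq.ne', Real.rpow_one, Real.rpow_one] at h1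
  exact h1

/-- The Haar system of `L_p[0,1]`, `1 < p < ∞`, satisfies the abstract hypotheses. -/
theorem exists_greedySystem (h1 : 1 < p) (hp' : p ≠ ∞) :
    ∃ K : ℝ, GreedySystem (haarLp 𝕜 p) (coefLin (𝕜 := 𝕜) (p := p)) K := by
  set q : ℝ := p.toReal with hq
  have hq1 : 1 < q := by
    rw [hq, ← ENNReal.toReal_one]
    exact (ENNReal.toReal_lt_toReal ENNReal.one_ne_top hp').mpr h1
  have hq0 : 0 < q := by linarith
  set q' : ℝ := q.conjExponent with hq'
  have hqq' : q.HolderConjugate q' := Real.HolderConjugate.conjExponent hq1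
  have hq'1 : 1 < q' := hqq'.symm.lt
  have hq'0 : 0 < q' := by linarith
  set r : ℝ := 2 * q + 2 * q / (q - 1) with hr
  have hpos : 0 < 2 * q / (q - 1) := div_pos (by linarith) (by linarith)
  have hr1 : 2 * q ≤ r := by rw [hr]; linarith
  have hr2 : 2 * q ≤ r * (q - 1) := by
    have : 2 * q / (q - 1) * (q - 1) = 2 * q := by
      rw [div_mul_cancel₀]; linarith
    rw [hr, add_mul, this]
    nlinarith
  set C1 : ℝ := (4 : ℝ) ^ q * burkC q r with hC1
  have hC1' : 0 ≤ C1 := mul_nonneg (by positivity) (burkC_nonneg (by linarith))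
  set C2 : ℝ := demC q (rho q) * demC q' (rho q') ^ (q / q') with hC2
  have hC2' : 0 ≤ C2 := mul_nonneg (demC_pos (rho_gt_one hq0)).le
    (Real.rpow_nonneg (demC_pos (rho_gt_one hq'0)).le _)
  have h01 : 0 ≤ C1 ^ (1 / q) := Real.rpow_nonneg hC1' _
  have h02 : 0 ≤ C2 ^ (1 / q) := Real.rpow_nonneg hC2' _
  refine ⟨1 + C1 ^ (1 / q) + C2 ^ (1 / q), ?_, ?_, ?_, ?_, ?_⟩
  · linarith
  · intro i j
    exact haarCoeff_haarLp i j
  · intro f c hc
    obtain ⟨n, hn⟩ := exists_lev c.support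
    rw [linearCombination_lev c hn]
    have e1 : ‖(∑ j ∈ lev n, c j • haarLp 𝕜 p j : Lp 𝕜 p unitMeasure)‖ ^ q ≤ C1 * ‖f‖ ^ q := by
      rw [hq, norm_lev_rpow hp', ← hq]
      refine (pw_unc (𝕜 := 𝕜) hq1 hr1 hr2 (a := haarCoeff f) hc n).trans ?_
      exact mul_le_mul_of_nonneg_left (pw_coeff_le hp' f n) hC1'
    have e2 := le_of_rpow_le hq0 (norm_nonneg _) (norm_nonneg _) hC1' e1
    have e3 : 0 ≤ (1 + C2 ^ (1 / q)) * ‖f‖ := by positivity
    calc _ ≤ _ := e2
      _ ≤ (1 + C1 ^ (1 / q) + C2 ^ (1 / q)) * ‖f‖ := by linarith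
  · intro f M h
    exact norm_le_of_sums f M h
  · intro c d hcd hc hd
    obtain ⟨n, hn⟩ := exists_lev (c.support ∪ d.support)
    have hnc : c.support ⊆ lev n := Finset.union_subset_left hn
    have hnd : d.support ⊆ lev n := Finset.union_subset_right hn
    rw [linearCombination_lev c hnc, linearCombination_lev d hnd]
    have e1 : ‖(∑ j ∈ lev n, c j • haarLp 𝕜 p j : Lp 𝕜 p unitMeasure)‖ ^ q ≤
        C2 * ‖(∑ j ∈ lev n, d j • haarLp 𝕜 p j : Lp 𝕜 p unitMeasure)‖ ^ q := by
      rw [hq, norm_lev_rpow hp', norm_lev_rpow hp', ← hq]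
      have f1 := pw_dem_upper (𝕜 := 𝕜) hq1 (rho_gt_one hq0) (rho_rpow hq0) hc
        (S := c.support) (fun j hj => Finsupp.notMem_support_iff.mp hj) n
      have f2 := pw_dem_lower (𝕜 := 𝕜) hqq' (rho_gt_one hq'0) (rho_mul hqq') (rho_rpow hq'0)
        (c := d) (S := d.support) hd hnd
      have f3 : (c.support.card : ℝ) ≤ d.support.card := by exact_mod_cast hcd
      have f4 := (demC_pos (p := q) (rho_gt_one hq0)).le
      calc pw q n (val (rho q) c n) ≤ demC q (rho q) * c.support.card := f1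
        _ ≤ demC q (rho q) * d.support.card := mul_le_mul_of_nonneg_left f3 f4
        _ ≤ demC q (rho q) * (demC q' (rho q') ^ (q / q') * pw q n (val (rho q) d n)) :=
          mul_le_mul_of_nonneg_left f2 f4
        _ = C2 * pw q n (val (rho q) d n) := by rw [hC2]; ring
    have e2 := le_of_rpow_le hq0 (norm_nonneg _) (norm_nonneg _) hC2' e1
    have e3 : 0 ≤ (1 + C1 ^ (1 / q)) *
        ‖(∑ j ∈ lev n, d j • haarLp 𝕜 p j : Lp 𝕜 p unitMeasure)‖ := by positivity
    calc _ ≤ _ := e2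
      _ ≤ _ := by linarith

end system

end Pool.Agent.Lib.MP_877d49_an
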